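import Pool.Agent.Lib.MP_72e2e6_nt.WP.El2.Gen

/-!
# MP_72e2e6_nt, theorem T3p, the case `p = 2`: base change
-/

namespace Pool.Agent.MP72V

open WeierstrassCurve G2
open Pool.Agent.MP72W (pmap)
open Pool.Agent

open scoped Classical

private def SBa {K : Type} [Field K] (E : ℕ → WeierstrassCurve K) (j : ℕ) (a b : K) : Prop :=
  ∀ (L : Type) [Field L] [Algebra K L], MP72W.IsEc ((E j)⁄L).toAffine ∧
      ((E j)⁄L).toAffine.a₂ = algebraMap K L (a ^ 2 ^ j) ∧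
      ((E j)⁄L).toAffine.a₆ = algebraMap K L (b ^ 2 ^ j) ∧ CharP L 2 ∧
    ∀ (S M : Type) [Field S] [Field M] [Algebra K S] [Algebra K M] [Algebra S L] [Algebra S M]
      [IsScalarTower K S L] [IsScalarTower K S M] (f : L →ₐ[S] M),
      (∀ (P : PtG E j L) (x y : L), XY P x y → XY (pmap (E j) f P) (f x) (f y)) ∧
      Function.Injective (pmap (E j) f) ∧
      (∀ P : PtG E j L, px (pmap (E j) f P) = f (px P) ∧
        py (pmap (E j) f P) = f (py P)) ∧
      ∀ (P : PtG E j M) (x y : L), XY P (f x) (f y) →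
        ∃ P₁ : PtG E j L, XY P₁ x y ∧ pmap (E j) f P₁ = P

private theorem sBa_EE (hPts : MP72W.S_Pts) (hMap : MP72W.S_Map) {K : Type} [Field K]
    [CharP K 2] (D γ : K) (hγ : γ ≠ 0) (j : ℕ) : SBa (MP72W.EE D γ) j D γ := by
  intro L _ _
  obtain ⟨m1, m2, m3, m4, m5⟩ := hMap K D γ hγ j L
  refine ⟨m1, m2, m3, m4, ?_⟩
  intro S M _ _ _ _ _ _ _ _ f
  obtain ⟨f1, f2, f3⟩ := m5 S M f
  refine ⟨f1, f2, ?_, ?_⟩
  · intro P
    have h := f3 P
    rw [px_eq, px_eq, py_eq, py_eq] at h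
    exact h
  · intro P x y hP
    obtain ⟨n1, n2, n3, n4, -⟩ := hMap K D γ hγ j M
    have he := ((hPts M _ n1).2.1 P _ _ hP).2.2.2
    have hfa : ∀ z : K, f (algebraMap K L z) = algebraMap K M z := by
      intro z
      rw [IsScalarTower.algebraMap_apply K S L, IsScalarTower.algebraMap_apply K S M, f.commutes]
    rw [n2, n3, ← hfa, ← hfa] at he
    have he2 : y ^ 2 + x * y = x ^ 3 + ((MP72W.EE D γ j)⁄L).toAffine.a₂ * x ^ 2 +
        ((MP72W.EE D γ j)⁄L).toAffine.a₆ := by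
      rw [m2, m3]
      have hinj : Function.Injective (fun z : L => f z) := f.toRingHom.injective
      apply hinj
      simpa only [map_add, map_mul, map_pow] using he
    obtain ⟨P₁, hP₁⟩ := (hPts L _ m1).2.2.1 x y he2
    exact ⟨P₁, hP₁, (hPts M _ n1).2.2.2.1 _ _ _ _ (f1 P₁ x y hP₁) hP⟩

theorem tBas2 (h1 : MP72W.S_Pts) (h2 : MP72W.S_Map) : S_Bas2 := by
  intro K _ _ W hW
  have hf : ∀ (V : WeierstrassCurve K) (j : ℕ), fr 2 V j = V.map (iterateFrobenius K 2 j) := by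
    intro V j
    ext <;> simp [fr, WeierstrassCurve.map, iterateFrobenius_def]
  refine ⟨?_, ?_, ?_⟩
  · intro j
    refine ⟨⟨?_, ?_, ?_, ?_⟩, hf W j, ?_⟩
    · simp [fr, hW.a1]
    · simp [fr, hW.a3]
    · simp [fr, hW.a4]
    · exact hW.a6.pow _
    · rw [fr_eq W hW]
  · intro i j
    ext <;> simp [fr, ← pow_mul, ← pow_add]
  · intro L _ _
    have h : SBa (fr 2 W) 0 W.a₂ W.a₆ := by
      rw [fr_eq W hW]
      exact sBa_EE h1 h2 _ _ (a6_ne W hW) 0
    have h0 : fr 2 W 0 = W := by ext <;> simp [fr]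
    unfold SBa PtG at h
    rw [h0] at h
    obtain ⟨b1, b2, b3, b4, b5⟩ := h L
    refine ⟨b4, ⟨b1.a1, b1.a3, b1.a4, ?_⟩, b1, by simp, by simp, b5⟩
    exact isUnit_iff_ne_zero.2 b1.b

end Pool.Agent.MP72V
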