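import Pool.Agent.Lib.MP_72e2e6_nt.WP.El2.Gen

/-!
# MP_72e2e6_nt, theorem T3p, the case `p = 2`: the Frobenius isogeny
-/

namespace Pool.Agent.MP72V

open WeierstrassCurve G2
open Pool.Agent.MP72W (pmap)
open Pool.Agent

open scoped Classical

private def SFr {K : Type} [Field K] (E : ℕ → WeierstrassCurve K) : Prop :=
  ∀ (j : ℕ) (L : Type) [Field L] [Algebra K L],
    FiG E j (0 : PtG E j L) = 0 ∧
    (∀ (P : PtG E j L) (x y : L), XY P x y → XY (FiG E j P) (x ^ 2) (y ^ 2)) ∧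
    (∀ P Q : PtG E j L, FiG E j (P + Q) = FiG E j P + FiG E j Q) ∧
    (∀ P Q : PtG E j L, FiG E j P = FiG E j Q → P = Q) ∧
    (∀ (S M : Type) [Field S] [Field M] [Algebra K S] [Algebra K M] [Algebra S L] [Algebra S M]
      [IsScalarTower K S L] [IsScalarTower K S M] (f : L →ₐ[S] M) (P : PtG E j L),
      pmap (E (j + 1)) f (FiG E j P) = FiG E j (pmap (E j) f P)) ∧
    ∀ (P : PtG E (j + 1) L) (x y : L), XY P (x ^ 2) (y ^ 2) →
      ∃ P₁ : PtG E j L, XY P₁ x y ∧ FiG E j P₁ = P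

private theorem sFr_EE (hPts : MP72W.S_Pts) (hMap : MP72W.S_Map) (hFV : MP72W.S_FV)
    (hFVh : MP72W.S_FVh) {K : Type} [Field K] [CharP K 2] (D γ : K) (hγ : γ ≠ 0) :
    SFr (MP72W.EE D γ) := by
  intro j L _ _
  obtain ⟨hEc1, ha1, hb1, hch, -⟩ := hMap K D γ hγ (j + 1) L
  obtain ⟨hEc0, ha0, hb0, -, -⟩ := hMap K D γ hγ j L
  obtain ⟨hF0, hF1, hinj, -⟩ := hFV K D γ hγ j L
  obtain ⟨hFa, -, -, -, hnat⟩ := hFVh K D γ hγ j L
  obtain ⟨-, p2, -, p4, -⟩ := hPts L _ hEc1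
  obtain ⟨-, -, p3, -⟩ := hPts L _ hEc0
  refine ⟨?_, ?_, ?_, ?_, ?_, ?_⟩
  · rw [FiG_EE]
    exact hF0
  · intro P x y h
    rw [FiG_EE]
    exact hF1 P x y h
  · intro P Q
    rw [FiG_EE, FiG_EE, FiG_EE]
    exact hFa P Q
  · intro P Q
    rw [FiG_EE, FiG_EE]
    exact hinj P Q
  · intro S M _ _ _ _ _ _ _ _ f P
    rw [FiG_EE, FiG_EE]
    exact (hnat S M f).1 P
  · intro P x y hP
    have he := (p2 P _ _ hP).2.2.2
    rw [ha1, hb1] at he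
    have e : ∀ z : K, algebraMap K L (z ^ 2 ^ j) ^ 2 = algebraMap K L (z ^ 2 ^ (j + 1)) := by
      intro z
      rw [← map_pow, ← pow_mul, ← pow_succ]
    have he2 : y ^ 2 + x * y = x ^ 3 + algebraMap K L (D ^ 2 ^ j) * x ^ 2
        + algebraMap K L (γ ^ 2 ^ j) := by
      refine eq_desc ?_
      rw [e, e]
      exact he
    obtain ⟨Q, hQ⟩ := p3 x y (by rw [ha0, hb0]; exact he2)
    refine ⟨Q, hQ, ?_⟩
    rw [FiG_EE]
    exact p4 _ _ _ _ (hF1 Q x y hQ) hP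

theorem tFr2 (h1 : MP72W.S_Pts) (h2 : MP72W.S_Map) (h3 : MP72W.S_FV) (h4 : MP72W.S_FVh) :
    S_Fr2 := by
  intro K _ _ W hW
  have h : SFr (fr 2 W) := by
    rw [fr_eq W hW]
    exact sFr_EE h1 h2 h3 h4 _ _ (a6_ne W hW)
  exact h

end Pool.Agent.MP72V
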