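import Pool.Agent.Lib.MP_72e2e6_nt.WP.El2.Gen

/-!
# MP_72e2e6_nt, theorem T3p, the case `p = 2`: the iterates of the isogenies
-/

namespace Pool.Agent.MP72V

open WeierstrassCurve G2
open Pool.Agent.MP72W (pmap)
open Pool.Agent

open scoped Classical

private def SIt {K : Type} [Field K] (E : ℕ → WeierstrassCurve K) : Prop :=
  ∀ (L : Type) [Field L] [Algebra K L],
    (∀ (n : ℕ) (P Q : PtG E 0 L), FnG E n (P + Q) = FnG E n P + FnG E n Q) ∧
    (∀ (n : ℕ) (P Q : PtG E n L), VnG E n (P + Q) = VnG E n P + VnG E n Q) ∧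
    (∀ (n : ℕ) (P : PtG E 0 L), VnG E n (FnG E n P) = 2 ^ n • P) ∧
    (∀ (n : ℕ) (P : PtG E n L), FnG E n (VnG E n P) = 2 ^ n • P) ∧
    (∀ (n : ℕ) (P Q : PtG E 0 L), FnG E n P = FnG E n Q → P = Q) ∧
    (∀ (n : ℕ) (S M : Type) [Field S] [Field M] [Algebra K S] [Algebra K M] [Algebra S L]
      [Algebra S M] [IsScalarTower K S L] [IsScalarTower K S M] (f : L →ₐ[S] M),
      (∀ P : PtG E 0 L, pmap (E n) f (FnG E n P) = FnG E n (pmap (E 0) f P)) ∧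
      ∀ P : PtG E n L, pmap (E 0) f (VnG E n P) = VnG E n (pmap (E n) f P)) ∧
    (∀ n : ℕ, {P : PtG E n L | VnG E n P = 0}.Finite ∧
      {P : PtG E n L | VnG E n P = 0}.ncard ≤ 2 ^ n) ∧
    (∀ (k : ℕ) (R : PtG E k L), IsRG E k R → addOrderOf R = 2 ^ k ∧
      ∀ P : PtG E k L, VnG E k P = 0 ↔ ∃ m : ℕ, P = m • R) ∧
    (∀ (k : ℕ) (R : PtG E (k + 1) L), IsRG E (k + 1) R → IsRG E k (ViG E k R)) ∧
    ∀ (k : ℕ) (R : PtG E k L) (S M : Type) [Field S] [Field M] [Algebra K S] [Algebra K M]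
      [Algebra S L] [Algebra S M] [IsScalarTower K S L] [IsScalarTower K S M] (f : L →ₐ[S] M),
      IsRG E k R → IsRG E k (pmap (E k) f R)

private theorem sIt_EE (hPts : MP72W.S_Pts) (hMap : MP72W.S_Map) (hFV : MP72W.S_FV)
    (hFVh : MP72W.S_FVh) (hFVn : MP72W.S_FVn) {K : Type} [Field K] [CharP K 2] (D γ : K)
    (hγ : γ ≠ 0) : SIt (MP72W.EE D γ) := by
  have hVi : ∀ (L : Type) [Field L] [Algebra K L] (j : ℕ) (X : MP72W.Pt D γ (j + 1) L),
      ViG (MP72W.EE D γ) j X = MP72W.Vi D γ j X := by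
    intro L _ _ j X
    exact ViG_EE D γ hMap hPts hFV hFVh hγ j X
  have hVn : ∀ (L : Type) [Field L] [Algebra K L] (n : ℕ) (X : MP72W.Pt D γ n L),
      VnG (MP72W.EE D γ) n X = MP72W.Vn D γ n X := by
    intro L _ _ n X
    exact VnG_EE D γ hMap hPts hFV hFVh hγ n X
  have hFn : ∀ (L : Type) [Field L] [Algebra K L] (n : ℕ) (X : MP72W.Pt D γ 0 L),
      FnG (MP72W.EE D γ) n X = MP72W.Fn D γ n X := by
    intro L _ _ n X
    exact FnG_EE D γ n X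
  have hR : ∀ (L : Type) [Field L] [Algebra K L] (n : ℕ) (X : MP72W.Pt D γ n L),
      IsRG (MP72W.EE D γ) n X ↔ MP72W.IsR D γ n X := by
    intro L _ _ n X
    exact IsRG_EE D γ hMap hPts hFV hFVh hγ n X
  intro L _ _
  obtain ⟨q1, q2, q3, q4, q5, q6, q7, q8, q9, q10⟩ := hFVn K D γ hγ L
  refine ⟨?_, ?_, ?_, ?_, ?_, ?_, ?_, ?_, ?_, ?_⟩
  · intro n P Q
    rw [hFn, hFn, hFn]
    exact q1 n P Q
  · intro n P Q
    rw [hVn, hVn, hVn]
    exact q2 n P Q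
  · intro n P
    rw [hFn, hVn]
    exact q3 n P
  · intro n P
    rw [hFn, hVn]
    exact q4 n P
  · intro n P Q
    rw [hFn, hFn]
    exact q5 n P Q
  · intro n S M _ _ _ _ _ _ _ _ f
    refine ⟨?_, ?_⟩
    · intro P
      rw [hFn, hFn]
      exact (q6 n S M f).1 P
    · intro P
      rw [hVn, hVn]
      exact (q6 n S M f).2 P
  · intro n
    have e : {P : PtG (MP72W.EE D γ) n L | VnG (MP72W.EE D γ) n P = 0} =
        {P : MP72W.Pt D γ n L | MP72W.Vn D γ n P = 0} := by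
      ext P
      exact Iff.of_eq (congrArg (· = 0) (hVn L n P))
    rw [e]
    exact q7 n
  · intro k R h
    obtain ⟨h1, h2⟩ := q8 k R ((hR L k R).1 h)
    refine ⟨h1, ?_⟩
    intro P
    rw [hVn]
    exact h2 P
  · intro k R h
    rw [hVi]
    exact (hR L k _).2 (q9 k R ((hR L (k + 1) R).1 h))
  · intro k R S M _ _ _ _ _ _ _ _ f h
    exact (hR M k _).2 (q10 k R S M f ((hR L k R).1 h))

theorem tIt2 (h1 : MP72W.S_Pts) (h2 : MP72W.S_Map) (h3 : MP72W.S_FV) (h4 : MP72W.S_FVh)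
    (h5 : MP72W.S_FVn) : S_It2 := by
  intro K _ _ W hW L _ _
  have h : SIt (fr 2 W) := by
    rw [fr_eq W hW]
    exact sIt_EE h1 h2 h3 h4 h5 _ _ (a6_ne W hW)
  have h' := h L
  simp only [VnG_fr, FnG_fr, IsRG_fr, ViG_fr] at h'
  exact h'

end Pool.Agent.MP72V
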