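import Pool.Agent.Lib.MP_72e2e6_nt.WP.El2.Gen

/-!
# MP_72e2e6_nt, theorem T3p, the case `p = 2`: separably closed fields
-/

namespace Pool.Agent.MP72V

open Polynomial WeierstrassCurve G2
open Pool.Agent.MP72W (pmap)
open Pool.Agent

open scoped Classical

private theorem rk_infinite (L : Type) [Field L] [IsSepClosed L] : Infinite L := by
  by_contra hfin
  rw [not_infinite_iff_finite] at hfin
  have := Fintype.ofFinite L
  have hq1 : 1 < Fintype.card L := Fintype.one_lt_card
  have hq0 : ((Fintype.card L : ℕ) : L) = 0 := FiniteField.cast_card_eq_zero L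
  let f : L[X] := X ^ Fintype.card L - X + C 1
  have hdeg : f.degree ≠ 0 := by
    have h1 : (X ^ Fintype.card L - X : L[X]).natDegree = Fintype.card L :=
      FiniteField.X_pow_card_sub_X_natDegree_eq L hq1
    have h2 : f.natDegree = Fintype.card L := by
      show (X ^ Fintype.card L - X + C 1 : L[X]).natDegree = _
      rw [natDegree_add_C, h1]
    intro h0
    have h3 : f.natDegree = 0 := natDegree_eq_of_degree_eq_some h0
    omega
  have hsep : f.Separable := by
    have hd : derivative f = -1 := by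
      show derivative (X ^ Fintype.card L - X + C 1 : L[X]) = -1
      rw [derivative_add, derivative_sub, derivative_X_pow, derivative_X, derivative_C, hq0]
      simp
    rw [separable_def, hd]
    exact isCoprime_one_right.neg_right
  obtain ⟨x, hx⟩ := IsSepClosed.exists_root f hdeg hsep
  have h3 : x ^ Fintype.card L - x + 1 = 0 := by
    have h4 : f.eval x = 0 := hx
    simpa [f] using h4
  rw [FiniteField.pow_card, sub_self, zero_add] at h3
  exact one_ne_zero h3

private theorem rk_asc (L : Type) [Field L] [CharP L 2] [IsSepClosed L] : MP72W.ASC L := by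
  intro c
  let f : L[X] := X ^ 2 + X - C c
  have hnd : f.natDegree = 2 := by
    show (X ^ 2 + X - C c : L[X]).natDegree = 2
    compute_degree!
  have hdeg : f.degree ≠ 0 := by
    intro h0
    have h3 : f.natDegree = 0 := natDegree_eq_of_degree_eq_some h0
    omega
  have hsep : f.Separable := by
    have hd : derivative f = 1 := by
      show derivative (X ^ 2 + X - C c : L[X]) = 1
      rw [derivative_sub, derivative_add, derivative_X_pow, derivative_X, derivative_C]
      have : ((2 : ℕ) : L) = 0 := CharP.cast_eq_zero L 2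
      rw [this]
      simp
    rw [separable_def, hd]
    exact isCoprime_one_right
  obtain ⟨x, hx⟩ := IsSepClosed.exists_root f hdeg hsep
  refine ⟨x, ?_⟩
  have h4 : f.eval x = 0 := hx
  have h5 : x ^ 2 + x - c = 0 := by simpa [f] using h4
  exact sub_eq_zero.1 h5

private def SRk {K : Type} [Field K] (E : ℕ → WeierstrassCurve K) : Prop :=
  ∀ (L : Type) [Field L] [Algebra K L] [IsSepClosed L],
    ((∀ (k : ℕ) (P : PtG E 0 L), ∃ X, VnG E k X = P) ∧
      ∀ k : ℕ, ∃ R : PtG E k L, IsRG E k R) ∧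
    ∀ j : ℕ, Infinite (PtG E j L)

private theorem sRk_EE (hPts : MP72W.S_Pts) (hMap : MP72W.S_Map) (hFV : MP72W.S_FV)
    (hFVh : MP72W.S_FVh) (hVsu : MP72W.S_Vsu) (hInf : MP72W.S_Inf) {K : Type} [Field K]
    [CharP K 2] (D γ : K) (hγ : γ ≠ 0) : SRk (MP72W.EE D γ) := by
  intro L _ _ _
  have hch : CharP L 2 := (hMap K D γ hγ 0 L).2.2.2.1
  have hasc : MP72W.ASC L := rk_asc L
  obtain ⟨-, -, -, v4, v5, -⟩ := hVsu K D γ hγ L
  refine ⟨⟨?_, ?_⟩, ?_⟩
  · intro k P
    obtain ⟨X, hX⟩ := v4 hasc k P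
    refine ⟨X, ?_⟩
    rw [VnG_EE D γ hMap hPts hFV hFVh hγ]
    exact hX
  · intro k
    obtain ⟨R, hR⟩ := v5 hasc k
    exact ⟨R, (IsRG_EE D γ hMap hPts hFV hFVh hγ k R).2 hR⟩
  · exact hInf K D γ hγ L hasc (rk_infinite L)

theorem tRk2 (h1 : MP72W.S_Pts) (h2 : MP72W.S_Map) (h3 : MP72W.S_FV) (h4 : MP72W.S_FVh)
    (h5 : MP72W.S_Vsu) (h6 : MP72W.S_Inf) : S_Rk2 := by
  intro K _ _ W hW L _ _ _
  have h : SRk (fr 2 W) := by
    rw [fr_eq W hW]
    exact sRk_EE h1 h2 h3 h4 h5 h6 _ _ (a6_ne W hW)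
  have h' := h L
  simp only [VnG_fr, IsRG_fr] at h'
  exact h'

end Pool.Agent.MP72V
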