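import Pool.Agent.Lib.MP_72e2e6_nt.WP.El2.Spec

/-!
# MP_72e2e6_nt, theorem T3p, the case `p = 2`: transport from the curves `EE D γ j` of `W2/D`

The definitions of `WP/El/Defs.lean` for a general sequence of curves.
-/

namespace Pool.Agent.MP72V.G2

open WeierstrassCurve
open Pool.Agent.MP72W (pmap)
open Pool.Agent.MP72P (EqN)
open Pool.Agent

open scoped Classical

section

variable {K : Type} [Field K] (E : ℕ → WeierstrassCurve K)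

/-- The points of `E j` over `L`. -/
abbrev PtG (j : ℕ) (L : Type) [Field L] [Algebra K L] : Type := ((E j)⁄L).toAffine.Point

variable {L : Type} [Field L] [Algebra K L]

/-- The Frobenius isogeny. -/
noncomputable def FiG (j : ℕ) (P : PtG E j L) : PtG E (j + 1) L :=
  if h : ∃ Q : PtG E (j + 1) L, P ≠ 0 ∧ XY Q (px P ^ 2) (py P ^ 2) then h.choose else 0

/-- `P = V X`. -/
def VrelG (j : ℕ) (X : PtG E (j + 1) L) (P : PtG E j L) : Prop :=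
  ∃ Q : PtG E j (AlgebraicClosure L),
    FiG E j Q = pmap (E (j + 1)) (Algebra.ofId L (AlgebraicClosure L)) X ∧
      pmap (E j) (Algebra.ofId L (AlgebraicClosure L)) P = 2 • Q

/-- The dual isogeny. -/
noncomputable def ViG (j : ℕ) (X : PtG E (j + 1) L) : PtG E j L :=
  if h : ∃ P : PtG E j L, VrelG E j X P then h.choose else 0

/-- The isogeny `E_0 → E_n`. -/
noncomputable def FnG : (n : ℕ) → PtG E 0 L → PtG E n L
  | 0, P => P
  | n + 1, P => FiG E n (FnG n P)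

/-- The isogeny `E_n → E_0`. -/
noncomputable def VnG : (n : ℕ) → PtG E n L → PtG E 0 L
  | 0, P => P
  | n + 1, P => VnG n (ViG E n P)

/-- `R` generates the kernel of `VnG k`. -/
def IsRG (k : ℕ) (R : PtG E k L) : Prop := VnG E k R = 0 ∧ ∀ n < k, 2 ^ n • R ≠ 0

/-- The properties of `Wf`. -/
structure IsWtG (k : ℕ) (R : PtG E k L) (w : PtG E k L → L) : Prop where
  ne : ∀ P, w P ≠ 0
  add : ∀ P Q, EqN (2 ^ k) (w (P + Q)) (w P * w Q)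
  gen : ∀ P, P ∉ AddSubgroup.zmultiples R → EqN (2 ^ k) (w P) (MP72W.Wf k R P)
  ker : ∀ P, EqN (2 ^ k) (w P) 1 ↔ ∃ q, P = FnG E k q

end

section

variable {K : Type} [Field K] (W : WeierstrassCurve K) {L : Type} [Field L] [Algebra K L]

theorem FiG_fr (j : ℕ) (P : Pt 2 W j L) : FiG (fr 2 W) j P = Fi 2 W j P := rfl

theorem ViG_fr (j : ℕ) (P : Pt 2 W (j + 1) L) : ViG (fr 2 W) j P = Vi 2 W j P := rfl

theorem FnG_fr (n : ℕ) (P : Pt 2 W 0 L) : FnG (fr 2 W) n P = Fn 2 W n P := by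
  induction n with
  | zero => rfl
  | succ n ih =>
    show FiG (fr 2 W) n (FnG (fr 2 W) n P) = Fi 2 W n (Fn 2 W n P)
    rw [ih]; rfl

theorem VnG_fr (n : ℕ) (P : Pt 2 W n L) : VnG (fr 2 W) n P = Vn 2 W n P := by
  induction n with
  | zero => rfl
  | succ n ih =>
    show VnG (fr 2 W) n (ViG (fr 2 W) n P) = Vn 2 W n (Vi 2 W n P)
    rw [ih]; rfl

theorem IsRG_fr (k : ℕ) (R : Pt 2 W k L) : IsRG (fr 2 W) k R ↔ IsR 2 W k R := by
  unfold IsRG IsR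
  rw [VnG_fr]

theorem IsWtG_fr (k : ℕ) (R : Pt 2 W k L) (w : Pt 2 W k L → L) :
    IsWtG (fr 2 W) k R w ↔ IsWt2 W k R w := by
  constructor
  · intro h
    refine ⟨h.ne, h.add, h.gen, ?_⟩
    intro P
    rw [h.ker P]
    simp only [FnG_fr]
  · intro h
    refine ⟨h.ne, h.add, h.gen, ?_⟩
    intro P
    rw [h.ker P]
    simp only [FnG_fr]

theorem fr_eq [CharP K 2] (hW : IsN2 W) : fr 2 W = MP72W.EE W.a₂ W.a₆ := by
  funext j
  have h0 : (0 : K) ^ 2 ^ j = 0 := zero_pow (by positivity)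
  ext <;> simp [fr, MP72W.EE, hW.a1, hW.a3, hW.a4, h0]

theorem a6_ne (hW : IsN2 W) : W.a₆ ≠ 0 := hW.a6.ne_zero

end

section

variable {L : Type} [Field L] {W : WeierstrassCurve.Affine L}

theorem px_eq (P : W.Point) : MP72W.px P = px P := by cases P <;> rfl

theorem py_eq (P : W.Point) : MP72W.py P = py P := by cases P <;> rfl

theorem XY_iff (P : W.Point) (x y : L) : MP72W.XY P x y ↔ XY P x y := Iff.rfl

end

section

variable {K : Type} [Field K] [CharP K 2] (D γ : K) {L : Type} [Field L] [Algebra K L]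

omit [CharP K 2] in
theorem FiG_EE (j : ℕ) (P : MP72W.Pt D γ j L) :
    FiG (MP72W.EE D γ) j P = MP72W.Fi D γ j P := by
  unfold FiG MP72W.Fi
  simp only [px_eq, py_eq]
  rfl

theorem sq_inj {Ω : Type} [Field Ω] [CharP Ω 2] {s t : Ω} (h : s ^ 2 = t ^ 2) : s = t := by
  have h1 : (s - t) ^ 2 = 0 := by
    rw [CharTwo.sub_eq_add, CharTwo.add_sq, h, CharTwo.add_self_eq_zero]
  exact sub_eq_zero.1 ((pow_eq_zero_iff two_ne_zero).1 h1)

theorem eq_desc {Ω : Type} [Field Ω] [CharP Ω 2] {A B ξ η : Ω}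
    (h : (η ^ 2) ^ 2 + ξ ^ 2 * η ^ 2 = (ξ ^ 2) ^ 3 + A ^ 2 * (ξ ^ 2) ^ 2 + B ^ 2) :
    η ^ 2 + ξ * η = ξ ^ 3 + A * ξ ^ 2 + B := by
  apply sq_inj
  rw [CharTwo.add_sq, CharTwo.add_sq, CharTwo.add_sq]
  linear_combination h

theorem sq_ex {Ω : Type} [Field Ω] [IsAlgClosed Ω] (x : Ω) : ∃ ξ : Ω, ξ ^ 2 = x :=
  IsAlgClosed.exists_pow_nat_eq x (by norm_num)

/-- Over an algebraically closed field `Fi` is surjective. -/
theorem Fi_surj (hMap : MP72W.S_Map) (hPts : MP72W.S_Pts) (hFV : MP72W.S_FV) (hγ : γ ≠ 0) (j : ℕ)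
    {Ω : Type} [Field Ω] [Algebra K Ω] [IsAlgClosed Ω] (X : MP72W.Pt D γ (j + 1) Ω) :
    ∃ Q : MP72W.Pt D γ j Ω, MP72W.Fi D γ j Q = X := by
  obtain ⟨hEc1, ha1, hb1, hch, -⟩ := hMap K D γ hγ (j + 1) Ω
  obtain ⟨hEc0, ha0, hb0, -, -⟩ := hMap K D γ hγ j Ω
  obtain ⟨hF0, hF1, -⟩ := hFV K D γ hγ j Ω
  obtain ⟨p1, p2, -, p4, -⟩ := hPts Ω _ hEc1
  obtain ⟨-, -, p3, -⟩ := hPts Ω _ hEc0
  rcases p1 X with rfl | ⟨x, y, hxy⟩
  · exact ⟨0, hF0⟩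
  · obtain ⟨ξ, rfl⟩ := sq_ex x
    obtain ⟨η, rfl⟩ := sq_ex y
    have he := (p2 X _ _ hxy).2.2.2
    rw [ha1, hb1] at he
    have he2 : η ^ 2 + ξ * η = ξ ^ 3 + algebraMap K Ω (D ^ 2 ^ j) * ξ ^ 2
        + algebraMap K Ω (γ ^ 2 ^ j) := by
      have e : ∀ z : K, algebraMap K Ω (z ^ 2 ^ j) ^ 2 = algebraMap K Ω (z ^ 2 ^ (j + 1)) := by
        intro z
        rw [← map_pow, ← pow_mul, ← pow_succ]
      refine eq_desc ?_
      rw [e, e]
      exact he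
    obtain ⟨Q, hQ⟩ := p3 ξ η (by rw [ha0, hb0]; exact he2)
    exact ⟨Q, p4 _ _ _ _ (hF1 Q ξ η hQ) hxy⟩

theorem VrelG_EE (hMap : MP72W.S_Map) (hPts : MP72W.S_Pts) (hFV : MP72W.S_FV)
    (hFVh : MP72W.S_FVh) (hγ : γ ≠ 0) (j : ℕ) (X : MP72W.Pt D γ (j + 1) L)
    (P : MP72W.Pt D γ j L) : VrelG (MP72W.EE D γ) j X P ↔ P = MP72W.Vi D γ j X := by
  obtain ⟨-, -, -, -, hnat⟩ := hFVh K D γ hγ j L
  obtain ⟨-, hV⟩ := hnat L (AlgebraicClosure L) (Algebra.ofId L (AlgebraicClosure L))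
  obtain ⟨-, hVF, -, -, -⟩ := hFVh K D γ hγ j (AlgebraicClosure L)
  obtain ⟨-, -, hinj, -⟩ := hFV K D γ hγ j (AlgebraicClosure L)
  obtain ⟨-, -, -, -, hm⟩ := hMap K D γ hγ j L
  obtain ⟨-, hpi, -⟩ := hm L (AlgebraicClosure L) (Algebra.ofId L (AlgebraicClosure L))
  constructor
  · rintro ⟨Q, hQ, hP⟩
    apply hpi
    rw [hP, hV, ← hQ, FiG_EE, hVF, two_nsmul]
  · rintro rfl
    obtain ⟨Q, hQ⟩ := Fi_surj D γ hMap hPts hFV hγ j
      (pmap (MP72W.EE D γ (j + 1)) (Algebra.ofId L (AlgebraicClosure L)) X)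
    refine ⟨Q, ?_, ?_⟩
    · rw [FiG_EE, hQ]
    · rw [hV, ← hQ, hVF, two_nsmul]

theorem ViG_EE (hMap : MP72W.S_Map) (hPts : MP72W.S_Pts) (hFV : MP72W.S_FV)
    (hFVh : MP72W.S_FVh) (hγ : γ ≠ 0) (j : ℕ) (X : MP72W.Pt D γ (j + 1) L) :
    ViG (MP72W.EE D γ) j X = MP72W.Vi D γ j X := by
  have h : ∃ P : PtG (MP72W.EE D γ) j L, VrelG (MP72W.EE D γ) j X P :=
    ⟨MP72W.Vi D γ j X, (VrelG_EE D γ hMap hPts hFV hFVh hγ j X _).2 rfl⟩
  unfold ViG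
  rw [dif_pos h]
  exact (VrelG_EE D γ hMap hPts hFV hFVh hγ j X _).1 h.choose_spec

omit [CharP K 2] in
theorem FnG_EE (n : ℕ) (P : MP72W.Pt D γ 0 L) :
    FnG (MP72W.EE D γ) n P = MP72W.Fn D γ n P := by
  induction n with
  | zero => rfl
  | succ n ih =>
    show FiG (MP72W.EE D γ) n (FnG (MP72W.EE D γ) n P) = MP72W.Fi D γ n (MP72W.Fn D γ n P)
    rw [ih, FiG_EE]

theorem VnG_EE (hMap : MP72W.S_Map) (hPts : MP72W.S_Pts) (hFV : MP72W.S_FV)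
    (hFVh : MP72W.S_FVh) (hγ : γ ≠ 0) (n : ℕ) (P : MP72W.Pt D γ n L) :
    VnG (MP72W.EE D γ) n P = MP72W.Vn D γ n P := by
  induction n with
  | zero => rfl
  | succ n ih =>
    show VnG (MP72W.EE D γ) n (ViG (MP72W.EE D γ) n P) = MP72W.Vn D γ n (MP72W.Vi D γ n P)
    rw [ih, ViG_EE D γ hMap hPts hFV hFVh hγ]

theorem IsRG_EE (hMap : MP72W.S_Map) (hPts : MP72W.S_Pts) (hFV : MP72W.S_FV)
    (hFVh : MP72W.S_FVh) (hγ : γ ≠ 0) (k : ℕ) (R : MP72W.Pt D γ k L) :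
    IsRG (MP72W.EE D γ) k R ↔ MP72W.IsR D γ k R := by
  unfold IsRG MP72W.IsR
  rw [VnG_EE D γ hMap hPts hFV hFVh hγ]

omit [CharP K 2] in
theorem IsWtG_EE (k : ℕ) (R : MP72W.Pt D γ k L) (w : MP72W.Pt D γ k L → L) :
    IsWtG (MP72W.EE D γ) k R w ↔ MP72W.IsWt D γ k R w := by
  constructor
  · intro h
    refine ⟨h.ne, h.add, h.gen, ?_⟩
    intro P
    refine (h.ker P).trans ?_
    simp only [FnG_EE]
  · intro h
    refine ⟨h.ne, h.add, h.gen, ?_⟩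
    intro P
    refine Iff.trans (h.ker P) ?_
    simp only [FnG_EE]

end

end Pool.Agent.MP72V.G2
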