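import Pool.Agent.Lib.MP_72e2e6_nt.WP.El2.SpecL
import Pool.Agent.Lib.MP_72e2e6_nt.WP.El2.Gen

/-!
# MP_72e2e6_nt, theorem T3p, the case `p = 2`: outside a finite set of places everything is unramified
-/

namespace Pool.Agent.MP72V

open WeierstrassCurve G2
open Pool.Agent.MP72W (pmap)
open Pool.Agent.MP72P (EqN Kvs Kgs nm op rsH hP tac GFld Pls Knr Cst IsGeo HUn)
open Pool.Agent

open scoped Classical

/-- The points which are fixed by the geometric elements. -/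
private theorem fix1 (hBas : S_Bas2) (hPts : MP72W.S_Pts) (hNr : MP72P.S_Nr) {K : Type} [Field K]
    [CharP K 2] (W : WeierstrassCurve K) (hW : IsN2 W) (v : AbsoluteValue K ℝ) (Q : ℕ)
    (ϖ : K) (R₀ : Finset K) (hLF : MP72P.LF v 2 Q ϖ R₀) (j : ℕ) (P : Pt 2 W j (Kvs v)) :
    (∀ g : Gal(Kvs v/v.Completion), IsGeo 2 g →
      pmap (fr 2 W j) (g : Kvs v →ₐ[v.Completion] Kvs v) P = P) ↔
    (px P ∈ Knr 2 v ∧ py P ∈ Knr 2 v) := by
  obtain ⟨-, -, -, -, -, r6, -⟩ := hNr 2 K v Q ϖ R₀ hLF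
  obtain ⟨b1, -, -⟩ := hBas K W hW
  obtain ⟨-, -, hBj⟩ := hBas K (fr 2 W j) (b1 j).1
  obtain ⟨hch, -, hEc, -, -, hm⟩ := hBj (Kvs v)
  obtain ⟨p1, -, -, p4, -⟩ := hPts (Kvs v) _ hEc
  constructor
  · intro h
    have hfix : ∀ x : Kvs v, (∀ g : Gal(Kvs v/v.Completion), IsGeo 2 g → g x = x) →
        x ∈ Knr 2 v := by
      intro x hx
      rw [← InfiniteGalois.fixedField_fixingSubgroup (Knr 2 v),
        IntermediateField.mem_fixedField_iff]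
      intro g hg
      apply hx
      rw [r6]
      intro y hy
      exact (IntermediateField.mem_fixingSubgroup_iff _ _).1 hg y hy
    refine ⟨hfix _ ?_, hfix _ ?_⟩
    · intro g hg
      have h1 := ((hm v.Completion (Kvs v) (g : Kvs v →ₐ[v.Completion] Kvs v)).2.2.1 P).1
      rw [h g hg] at h1
      exact h1.symm
    · intro g hg
      have h1 := ((hm v.Completion (Kvs v) (g : Kvs v →ₐ[v.Completion] Kvs v)).2.2.1 P).2
      rw [h g hg] at h1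
      exact h1.symm
  · rintro ⟨hx, hy⟩ g hg
    rw [r6] at hg
    cases P with
    | zero => exact map_zero _
    | some x y h =>
      have h1 := (hm v.Completion (Kvs v) (g : Kvs v →ₐ[v.Completion] Kvs v)).1 (.some x y h) x y
        ⟨h, rfl⟩
      have h2 : (g : Kvs v →ₐ[v.Completion] Kvs v) x = x := hg x hx
      have h3 : (g : Kvs v →ₐ[v.Completion] Kvs v) y = y := hg y hy
      rw [h2, h3] at h1
      exact p4 _ _ _ _ h1 ⟨h, rfl⟩

attribute [-instance] Subtype.instDecidableEq in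
private def SWu {K : Type} [Field K] (v : AbsoluteValue K ℝ) (ϖ : K)
    (E : ℕ → WeierstrassCurve K) : Prop :=
  ∀ (k : ℕ) (R : PtG E k (Kvs v)), IsRG E k R → MP72W.CIn R (Knr 2 v : Set (Kvs v)) →
    ∀ P : PtG E k (Kvs v), MP72W.CIn P (Knr 2 v : Set (Kvs v)) →
      P ∉ AddSubgroup.zmultiples R →
      MP72W.Wf k R P ∈ Knr 2 v ∧
        ∃ n : ℤ, nm v (MP72W.Wf k R P) = v ϖ ^ n ∧ (2 ^ k : ℤ) ∣ n

attribute [-instance] Subtype.instDecidableEq in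
private theorem sWu_EE (hWun : S_Wun2) (hPts : MP72W.S_Pts) (hMap : MP72W.S_Map)
    (hFV : MP72W.S_FV) (hFVh : MP72W.S_FVh) {K : Type} [Field K] [CharP K 2]
    (v : AbsoluteValue K ℝ) (Q : ℕ) (ϖ : K) (R₀ : Finset K) (hLF : MP72P.LF v 2 Q ϖ R₀)
    (D γ : K) (hD : v D ≤ 1) (hγ : v γ = 1) : SWu v ϖ (MP72W.EE D γ) := by
  intro k R hR hRM P hPM hP
  have hde : (fun a b : Kvs v => Subtype.instDecidableEq a b) =
      fun a b => Classical.propDecidable (a = b) := Subsingleton.elim _ _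
  have hγ0 : γ ≠ 0 := by
    rintro rfl
    rw [map_zero] at hγ
    exact zero_ne_one hγ
  have h1 := hWun K v Q ϖ R₀ hLF D γ hD hγ k R
    ((IsRG_EE D γ hMap hPts hFV hFVh hγ0 k R).1 hR) hRM P hPM
  rw [hde] at h1
  exact h1 hP

attribute [-instance] Subtype.instDecidableEq in
private theorem main (hBas : S_Bas2) (hIt : S_It2) (hUnv : S_Unv2)
    (hPts : MP72W.S_Pts) (hLc1 : MP72P.S_Lc1)
    (hLc2 : MP72P.S_Lc2) (hCst : MP72P.S_Cst) (hNr : MP72P.S_Nr) {K : Type} [Field K]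
    [CharP K 2] (W : WeierstrassCurve K) (hW : IsN2 W) (v : AbsoluteValue K ℝ) (Q : ℕ)
    (ϖ : K) (R₀ : Finset K) (hLF : MP72P.LF v 2 Q ϖ R₀) (ha : v W.a₂ ≤ 1) (hb : v W.a₆ = 1)
    (hSW : SWu v ϖ (fr 2 W)) (k : ℕ) (R : Pt 2 W k (Kvs v)) (hR : IsR 2 W k R)
    (w : Pt 2 W k (Kvs v) → Kvs v) (hw : IsWt2 W k R w) (P : Pt 2 W k (Kvs v))
    (hP : ∀ g : Gal(Kvs v/v.Completion), IsGeo 2 g →
      pmap (fr 2 W k) (g : Kvs v →ₐ[v.Completion] Kvs v) P = P) :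
    ∃ r ∈ Knr 2 v, r ≠ 0 ∧ EqN (2 ^ k) (w P) r ∧ ∃ x : ℤ, nm v r = v ϖ ^ x ∧ (2 : ℤ) ^ k ∣ x := by
  obtain ⟨l1, -⟩ := hLc1 2 K v Q ϖ R₀ hLF
  obtain ⟨n1, n2, n3, n4, n5, n6, n7, -, -, n9⟩ := hLc2 2 K v Q ϖ R₀ hLF
  obtain ⟨r1, r2, r3, r4, -, r6, -⟩ := hNr 2 K v Q ϖ R₀ hLF
  obtain ⟨-, -, -, -, -, -, c7, -⟩ := hCst 2 (Kvs v)
  have : CharP (Kvs v) 2 := n9
  have two : (2 : Kvs v) = 0 := CharTwo.two_eq_zero
  have hnK : ∀ x : K, nm v (algebraMap K (Kvs v) x) = v x := by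
    intro x
    rw [IsScalarTower.algebraMap_apply K v.Completion (Kvs v), n5, l1]
  have hMK : ∀ x : K, algebraMap K (Kvs v) x ∈ Knr 2 v := by
    intro x
    rw [IsScalarTower.algebraMap_apply K v.Completion (Kvs v)]
    exact (Knr 2 v).algebraMap_mem _
  obtain ⟨b1, -, -⟩ := hBas K W hW
  obtain ⟨-, -, hBj⟩ := hBas K (fr 2 W 0) (b1 0).1
  obtain ⟨-, -, hEc, ha2, ha6, -⟩ := hBj (Kvs v)
  obtain ⟨-, p2, p3, -⟩ := hPts (Kvs v) _ hEc
  have ea2 : (fr 2 W 0).a₂ = W.a₂ := by simp [fr]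
  have ea6 : (fr 2 W 0).a₆ = W.a₆ := by simp [fr]
  rw [ea2] at ha2
  rw [ea6] at ha6
  obtain ⟨f1, f2, f3, -, f5, f6, f7, f8, -, -⟩ := hIt K W hW (Kvs v)
  -- nonzero constants
  have hinf : (Cst 2 (Kvs v) \ {0}).Infinite := by
    refine Set.Infinite.sdiff ?_ (Set.finite_singleton _)
    intro hfin
    have h1 : ∀ n, 1 ≤ n → 2 ^ n ≤ (Cst 2 (Kvs v)).ncard := by
      intro n hn
      rw [← c7 n hn]
      exact Set.ncard_le_ncard (fun x hx => ⟨n, hn, hx⟩) hfin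
    have h2 := h1 ((Cst 2 (Kvs v)).ncard + 1) (by omega)
    have h3 : (Cst 2 (Kvs v)).ncard + 1 <
        2 ^ ((Cst 2 (Kvs v)).ncard + 1) := Nat.lt_pow_self (by omega)
    omega
  have hpt : ∀ c ∈ Cst 2 (Kvs v) \ {0}, ∃ q : Pt 2 W 0 (Kvs v), px q = c ∧
      ∀ g : Gal(Kvs v/v.Completion), IsGeo 2 g →
        pmap (fr 2 W 0) (g : Kvs v →ₐ[v.Completion] Kvs v) q = q := by
    rintro c ⟨hc, hc0⟩
    have hc0' : c ≠ 0 := hc0
    have hcn : nm v c = 1 := n7 c hc hc0'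
    have hcM : c ∈ Knr 2 v := r4 c hc
    have hnpow : nm v (c ^ 2) = 1 := by rw [pow_two, n3, hcn, one_mul]
    obtain ⟨θ, hθ, hθe⟩ := r3 (c + algebraMap K (Kvs v) W.a₂ + algebraMap K (Kvs v) W.a₆ / c ^ 2)
      (add_mem (add_mem hcM (hMK _)) (div_mem (hMK _) (pow_mem hcM 2))) (by
        refine (n4 _ _).trans (max_le ((n4 _ _).trans (max_le hcn.le ?_)) ?_)
        · rw [hnK]; exact ha
        · have e1 : nm v (algebraMap K (Kvs v) W.a₆ / c ^ 2) * nm v (c ^ 2) = 1 := by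
            rw [← n3, div_mul_cancel₀ _ (pow_ne_zero 2 hc0'), hnK, hb]
          rw [hnpow, mul_one] at e1
          exact e1.le)
    obtain ⟨q, hq⟩ := p3 c (θ * c) (by
      rw [ha2, ha6]
      have e2 : θ ^ 2 * c ^ 2 - θ * c ^ 2 =
          c ^ 3 + algebraMap K (Kvs v) W.a₂ * c ^ 2 + algebraMap K (Kvs v) W.a₆ := by
        have e3 : (θ ^ 2 - θ) * c ^ 2 = (c + algebraMap K (Kvs v) W.a₂ +
          algebraMap K (Kvs v) W.a₆ / c ^ 2) * c ^ 2 := by rw [hθe]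
        rw [add_mul, div_mul_cancel₀ _ (pow_ne_zero 2 hc0')] at e3
        linear_combination e3
      linear_combination e2 + (θ * c ^ 2) * two)
    have e4 : px q = c := by
      rw [← (p2 q _ _ hq).2.1]
      cases q <;> rfl
    have e5 : py q = θ * c := by
      rw [← (p2 q _ _ hq).2.2.1]
      cases q <;> rfl
    refine ⟨q, e4, (fix1 hBas hPts hNr W hW v Q ϖ R₀ hLF 0 q).2 ⟨?_, ?_⟩⟩
    · rw [e4]; exact hcM
    · rw [e5]; exact mul_mem hθ hcM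
  choose! q hq1 hq2 using hpt
  have hord := (f8 k R hR).1
  have hHfin : (AddSubgroup.zmultiples R : Set (Pt 2 W k (Kvs v))).Finite := by
    rw [finite_zmultiples, ← addOrderOf_pos_iff, hord]
    positivity
  obtain ⟨c, hc, hcH⟩ : ∃ c ∈ Cst 2 (Kvs v) \ {0},
      P + Fn 2 W k (q c) ∉ AddSubgroup.zmultiples R := by
    by_contra hcon
    push Not at hcon
    refine Set.infinite_of_injOn_mapsTo (f := fun c => P + Fn 2 W k (q c)) ?_
      (t := (AddSubgroup.zmultiples R : Set (Pt 2 W k (Kvs v)))) ?_ hinf hHfin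
    · intro c hc c' hc' hcc
      have e1 : Fn 2 W k (q c) = Fn 2 W k (q c') := add_left_cancel hcc
      have e2 := f5 k _ _ e1
      rw [← hq1 c hc, ← hq1 c' hc', e2]
    · intro c hc
      exact hcon c hc
  set P' : Pt 2 W k (Kvs v) := P + Fn 2 W k (q c) with hP'def
  have hP'fix : ∀ g : Gal(Kvs v/v.Completion), IsGeo 2 g →
      pmap (fr 2 W k) (g : Kvs v →ₐ[v.Completion] Kvs v) P' = P' := by
    intro g hg
    rw [hP'def, map_add, hP g hg,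
      (f6 k v.Completion (Kvs v) (g : Kvs v →ₐ[v.Completion] Kvs v)).1, hq2 c hc g hg]
  have hCIn : ∀ X : Pt 2 W k (Kvs v), (px X ∈ Knr 2 v ∧ py X ∈ Knr 2 v) →
      MP72W.CIn X (Knr 2 v : Set (Kvs v)) := by
    intro X hX
    refine ⟨?_, ?_⟩
    · rw [px_eq]; exact hX.1
    · rw [py_eq]; exact hX.2
  have hRM : MP72W.CIn R (Knr 2 v : Set (Kvs v)) := by
    refine hCIn R (hUnv K W hW v Q ϖ R₀ hLF ha hb k R ?_)
    rw [hR.1]
    exact ⟨zero_mem _, zero_mem _⟩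
  obtain ⟨hWM, n, hn, hdvd⟩ := hSW k R ((IsRG_fr W k R).2 hR) hRM P'
    (hCIn P' ((fix1 hBas hPts hNr W hW v Q ϖ R₀ hLF k P').1 hP'fix)) hcH
  have hr0 : MP72W.Wf k R P' ≠ 0 := by
    intro h0
    rw [h0, (n2 0).2 rfl] at hn
    exact (zpow_ne_zero n hLF.pi0.ne') hn.symm
  refine ⟨MP72W.Wf k R P', hWM, hr0, ?_, n, hn, hdvd⟩
  obtain ⟨s₁, hs₁, e1⟩ := hw.add P (Fn 2 W k (q c))
  obtain ⟨s₂, hs₂, e2⟩ := (hw.ker (Fn 2 W k (q c))).2 ⟨q c, rfl⟩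
  obtain ⟨s₃, hs₃, e3⟩ := hw.gen P' hcH
  refine ⟨s₃ / (s₁ * s₂), div_ne_zero hs₃ (mul_ne_zero hs₁ hs₂), ?_⟩
  rw [← hP'def, e3, e2] at e1
  rw [div_pow, mul_pow, mul_div_assoc', eq_div_iff (mul_ne_zero (pow_ne_zero _ hs₁)
    (pow_ne_zero _ hs₂))]
  rw [e1]
  ring

/-- **UnW2**. Outside a finite set of places everything is unramified (`p = 2`). -/
theorem tUnW2 (hBas : S_Bas2) (hIt : S_It2) (hUnv : S_Unv2) (hWun : S_Wun2)
    (hPts : MP72W.S_Pts) (hMap : MP72W.S_Map) (hFV : MP72W.S_FV) (hFVh : MP72W.S_FVh)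
    (hLc1 : MP72P.S_Lc1) (hLc2 : MP72P.S_Lc2) (hCst : MP72P.S_Cst) (hNr : MP72P.S_Nr)
    (hAlm : MP72P.S_Alm) (hDsc : MP72P.S_Dsc) : MP72P.S_UnW2 := by
  intro K _ _ hK W hW
  obtain ⟨m₁, av₁, hP₁, hv₁⟩ := hAlm 2 K hK (if W.a₂ = 0 then 1 else W.a₂) (by
    split_ifs with h
    · exact one_ne_zero
    · exact h)
  obtain ⟨m₂, av₂, hP₂, hv₂⟩ := hAlm 2 K hK W.a₆ hW.a6.ne_zero
  refine ⟨m₁ + m₂, Fin.append av₁ av₂, ?_, ?_⟩
  · intro i
    refine Fin.addCases (fun i => ?_) (fun i => ?_) i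
    · rw [Fin.append_left]
      exact hP₁.ntr i
    · rw [Fin.append_right]
      exact hP₂.ntr i
  intro J av hj k
  have key : ∀ v : AbsoluteValue K ℝ, v.IsNontrivial → (∀ j, ¬ v.IsEquiv (av j)) →
      v W.a₂ ≤ 1 ∧ v W.a₆ = 1 := by
    intro v hv hne
    constructor
    · have h1 := hv₁ v hv (by
        intro i hi
        obtain ⟨j, hj'⟩ := hj (Fin.castAdd m₂ i)
        rw [Fin.append_left] at hj'
        exact hne j (hi.trans hj'.symm))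
      split_ifs at h1 with h
      · rw [h, map_zero]
        exact zero_le_one
      · exact h1.le
    · refine hv₂ v hv ?_
      intro i hi
      obtain ⟨j, hj'⟩ := hj (Fin.natAdd m₁ i)
      rw [Fin.append_right] at hj'
      exact hne j (hi.trans hj'.symm)
  constructor
  · intro v hv hne X hX
    obtain ⟨Q, ϖ, R₀, hLF⟩ := hDsc 2 K hK v hv
    obtain ⟨ha, hb⟩ := key v hv hne
    rw [fix1 hBas hPts hNr W hW v Q ϖ R₀ hLF] at hX
    rw [fix1 hBas hPts hNr W hW v Q ϖ R₀ hLF]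
    exact hUnv K W hW v Q ϖ R₀ hLF ha hb k X hX
  · intro v hv hne Q ϖ R₀ hLF R hR w hw P hP
    obtain ⟨ha, hb⟩ := key v hv hne
    have hSW : SWu v ϖ (fr 2 W) := by
      rw [fr_eq W hW]
      exact sWu_EE hWun hPts hMap hFV hFVh v Q ϖ R₀ hLF _ _ ha hb
    exact main hBas hIt hUnv hPts hLc1 hLc2 hCst hNr W hW v Q ϖ R₀ hLF ha hb hSW k R hR w hw P hP

end Pool.Agent.MP72V
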