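import Pool.Agent.Lib.MP_72e2e6_nt.WP.El2.SpecL

/-!
# MP_72e2e6_nt, theorem T3p, the case `p = 2`: preimages of unramified points
-/

namespace Pool.Agent.MP72V

open WeierstrassCurve
open Pool.Agent.MP72W (pmap)
open Pool.Agent.MP72P (EqN Kvs Kgs nm op rsH hP tac GFld Pls Knr)
open Pool.Agent

open scoped Classical

/-- **Unv2**. Preimages of unramified points. -/
theorem tUnv2 (h1 : S_Bas2) (h2 : S_Vx2) (h3 : MP72W.S_Pts) (h4 : MP72P.S_Lc1)
    (h5 : MP72P.S_Lc2) (h6 : MP72P.S_Nr) : S_Unv2 := by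
  intro K _ _ W hW v Q ϖ R₀ hLF ha hb
  obtain ⟨c1, -⟩ := h4 2 K v Q ϖ R₀ hLF
  obtain ⟨n1, n2, n3, n4, n5, -, -, -, -, n9⟩ := h5 2 K v Q ϖ R₀ hLF
  obtain ⟨-, -, r3, -⟩ := h6 2 K v Q ϖ R₀ hLF
  have : CharP (Kvs v) 2 := n9
  have two : (2 : Kvs v) = 0 := CharTwo.two_eq_zero
  have hal : ∀ z : K, nm v (algebraMap K (Kvs v) z) = v z := by
    intro z
    rw [IsScalarTower.algebraMap_apply K v.Completion (Kvs v) z, n5, c1]
  have hMK : ∀ x : K, algebraMap K (Kvs v) x ∈ Knr 2 v := by
    intro x
    rw [IsScalarTower.algebraMap_apply K v.Completion (Kvs v)]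
    exact (Knr 2 v).algebraMap_mem _
  have nm1 : nm v (1 : Kvs v) = 1 := by
    have e1 := n3 1 1
    rw [one_mul] at e1
    have e2 : nm v (1 : Kvs v) ≠ 0 := by
      rw [Ne, n2]; exact one_ne_zero
    exact (mul_left_cancel₀ e2 (by rw [← e1, mul_one]))
  have nmpow : ∀ (x : Kvs v) (n : ℕ), nm v (x ^ n) = nm v x ^ n := by
    intro x n
    induction n with
    | zero => rw [pow_zero, pow_zero, nm1]
    | succ n ih => rw [pow_succ, pow_succ, n3, ih]
  -- roots of Artin-Schreier equations
  have root : ∀ z c : Kvs v, c ∈ Knr 2 v → nm v c ≤ 1 → z ^ 2 + z = c → z ∈ Knr 2 v := by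
    intro z c hc hc1 hz
    obtain ⟨θ, hθ, hθc⟩ := r3 c hc hc1
    have e1 : (z - θ) * (z - θ + 1) = 0 := by
      linear_combination hz - hθc + (θ ^ 2 - θ - z * θ) * two
    rcases mul_eq_zero.1 e1 with h | h
    · rw [sub_eq_zero.1 h]
      exact hθ
    · have e2 : z = θ - 1 := by linear_combination h
      rw [e2]
      exact sub_mem hθ (one_mem _)
  have hsq : ∀ s t : Kvs v, s ^ 2 = t ^ 2 → s = t := by
    intro s t h
    have e1 : (s - t) ^ 2 = 0 := by
      rw [CharTwo.sub_eq_add, CharTwo.add_sq, h, CharTwo.add_self_eq_zero]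
    exact sub_eq_zero.1 ((pow_eq_zero_iff two_ne_zero).1 e1)
  have key : ∀ (k : ℕ) (X : Pt 2 W k (Kvs v)),
      (px (Vn 2 W k X) ∈ Knr 2 v ∧ py (Vn 2 W k X) ∈ Knr 2 v) →
      px X ∈ Knr 2 v ∧ py X ∈ Knr 2 v := by
    obtain ⟨b1, -, -⟩ := h1 K W hW
    obtain ⟨v1, v2, -, v4⟩ := h2 K W hW (Kvs v)
    have step : ∀ (j : ℕ) (X : Pt 2 W (j + 1) (Kvs v)),
        (px (Vi 2 W j X) ∈ Knr 2 v ∧ py (Vi 2 W j X) ∈ Knr 2 v) →
        px X ∈ Knr 2 v ∧ py X ∈ Knr 2 v := by
      rintro j X ⟨hx, hy⟩
      obtain ⟨-, -, hBj⟩ := h1 K (fr 2 W j) (b1 j).1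
      obtain ⟨-, -, hBj1⟩ := h1 K (fr 2 W (j + 1)) (b1 (j + 1)).1
      obtain ⟨-, -, hEcj, -⟩ := hBj (Kvs v)
      obtain ⟨-, -, hEcj1, -⟩ := hBj1 (Kvs v)
      obtain ⟨-, p2, -⟩ := h3 (Kvs v) _ hEcj
      obtain ⟨q1, q2, -⟩ := h3 (Kvs v) _ hEcj1
      by_cases hX : X = 0
      · rw [hX]
        exact ⟨zero_mem _, zero_mem _⟩
      obtain ⟨x₁, y₁, hxy⟩ := (q1 X).resolve_left hX
      have epx : px X = x₁ := by
        rw [← (q2 X _ _ hxy).2.1]
        cases X <;> rfl
      have epy : py X = y₁ := by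
        rw [← (q2 X _ _ hxy).2.2.1]
        cases X <;> rfl
      rw [epx, epy]
      have he := v4 (j + 1) X x₁ y₁ hxy
      set a : Kvs v := algebraMap K (Kvs v) (W.a₂ ^ 2 ^ j) with hadef
      set b : Kvs v := algebraMap K (Kvs v) (W.a₆ ^ 2 ^ j) with hbdef
      have ea : algebraMap K (Kvs v) (W.a₂ ^ 2 ^ (j + 1)) = a ^ 2 := by
        rw [hadef, ← map_pow, ← pow_mul, ← pow_succ]
      have eb : algebraMap K (Kvs v) (W.a₆ ^ 2 ^ (j + 1)) = b ^ 2 := by
        rw [hbdef, ← map_pow, ← pow_mul, ← pow_succ]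
      rw [ea, eb] at he
      have haM : a ∈ Knr 2 v := hMK _
      have hbM : b ∈ Knr 2 v := hMK _
      have ha1 : nm v a ≤ 1 := by
        rw [hadef, hal, map_pow]
        exact pow_le_one₀ (v.nonneg _) ha
      have hb1 : nm v b = 1 := by
        rw [hbdef, hal, map_pow, hb, one_pow]
      by_cases hx₁ : x₁ = 0
      · subst hx₁
        have hyb : y₁ = b := hsq _ _ (by linear_combination he)
        rw [hyb]
        exact ⟨zero_mem _, hbM⟩
      have hV := v2 j X x₁ y₁ hxy hx₁
      rw [← hadef, ← hbdef] at hV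
      set P := Vi 2 W j X with hP
      set x : Kvs v := x₁ + b / x₁ with hxdef
      set y : Kvs v := x₁ + ((y₁ + b) / x₁ + a + 1) * x with hydef
      have ex : px P = x := by
        rw [← (p2 P _ _ hV).2.1]
        cases P <;> rfl
      have ey : py P = y := by
        rw [← (p2 P _ _ hV).2.2.1]
        cases P <;> rfl
      rw [ex] at hx
      rw [ey] at hy
      have hP' := v4 j P x y hV
      rw [← hadef, ← hbdef] at hP'
      have hquad : x₁ ^ 2 + x * x₁ + b = 0 := by
        have e1 : x * x₁ = x₁ ^ 2 + b := by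
          rw [hxdef, add_mul, div_mul_cancel₀ _ hx₁]; ring
        rw [e1]
        linear_combination (x₁ ^ 2 + b) * two
      by_cases hx0 : x = 0
      · -- the point of order two
        have hyx : y = x₁ := by rw [hydef, hx0, mul_zero, add_zero]
        have hx₁M : x₁ ∈ Knr 2 v := by rw [← hyx]; exact hy
        have hx₁b : x₁ ^ 2 = b := by
          rw [hx0] at hquad
          linear_combination hquad - b * two
        have hn₁ : nm v x₁ = 1 := by
          have e1 : nm v x₁ ^ 2 = 1 := by rw [← nmpow, hx₁b, hb1]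
          exact (pow_eq_one_iff_of_nonneg (n1 _) two_ne_zero).1 e1
        refine ⟨hx₁M, ?_⟩
        have hz : (y₁ / x₁) ^ 2 + y₁ / x₁ = x₁ + a ^ 2 + x₁ ^ 2 := by
          field_simp
          rw [← hx₁b] at he
          linear_combination he
        have hzM : y₁ / x₁ ∈ Knr 2 v := by
          refine root _ _ ?_ ?_ hz
          · exact add_mem (add_mem hx₁M (pow_mem haM 2)) (pow_mem hx₁M 2)
          · refine (n4 _ _).trans (max_le ((n4 _ _).trans (max_le hn₁.le ?_)) ?_)
            · rw [nmpow]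
              exact pow_le_one₀ (n1 _) ha1
            · rw [nmpow, hn₁, one_pow]
        have e2 : y₁ = y₁ / x₁ * x₁ := (div_mul_cancel₀ _ hx₁).symm
        rw [e2]
        exact mul_mem hzM hx₁M
      · have hx₁M : x₁ ∈ Knr 2 v := by
          by_cases hn : nm v x ≤ 1
          · have hη : ((x₁ + y) / x) ^ 2 + (x₁ + y) / x = x + a := by
              field_simp
              linear_combination hP' + hquad + (x₁ * y) * two
            have hηM : (x₁ + y) / x ∈ Knr 2 v := by
              refine root _ _ (add_mem hx haM) ?_ hη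
              exact (n4 _ _).trans (max_le hn ha1)
            have e3 : x₁ = (x₁ + y) / x * x - y := by
              rw [div_mul_cancel₀ _ hx0]; ring
            rw [e3]
            exact sub_mem (mul_mem hηM hx) hy
          · push Not at hn
            have hξ : (x₁ / x) ^ 2 + x₁ / x = b / x ^ 2 := by
              field_simp
              linear_combination hquad - b * two
            have hξM : x₁ / x ∈ Knr 2 v := by
              refine root _ _ (div_mem hbM (pow_mem hx 2)) ?_ hξ
              have e4 : nm v (b / x ^ 2) * nm v (x ^ 2) = 1 := by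
                rw [← n3, div_mul_cancel₀ _ (pow_ne_zero 2 hx0), hb1]
              rw [nmpow] at e4
              by_contra hcon
              push Not at hcon
              have e5 : 1 < nm v (b / x ^ 2) * nm v x ^ 2 := by
                have e6 : 1 < nm v x ^ 2 := one_lt_pow₀ hn two_ne_zero
                nlinarith
              linarith
            have e3 : x₁ = x₁ / x * x := (div_mul_cancel₀ _ hx0).symm
            rw [e3]
            exact mul_mem hξM hx
        refine ⟨hx₁M, ?_⟩
        have e7 : y₁ = ((y - x₁) / x - a - 1) * x₁ - b := by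
          have e8 : (y - x₁) / x = (y₁ + b) / x₁ + a + 1 := by
            rw [hydef, add_sub_cancel_left, mul_div_assoc, div_self hx0, mul_one]
          rw [e8]
          field_simp
          ring
        rw [e7]
        exact sub_mem (mul_mem (sub_mem (sub_mem (div_mem (sub_mem hy hx₁M) hx) haM) (one_mem _))
          hx₁M) hbM
    intro k
    induction k with
    | zero => exact fun X hX => hX
    | succ k ih =>
      intro X hX
      exact step k X (ih (Vi 2 W k X) hX)
  exact key

end Pool.Agent.MP72V
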