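import Pool.Agent.Lib.MP_72e2e6_nt.WP.El2.Gen

/-!
# MP_72e2e6_nt, theorem T3p, the case `p = 2`: the isogeny `Vi`
-/

namespace Pool.Agent.MP72V

open WeierstrassCurve G2
open Pool.Agent.MP72W (pmap)
open Pool.Agent

open scoped Classical

private def SVh {K : Type} [Field K] (E : ℕ → WeierstrassCurve K) : Prop :=
  ∀ (j : ℕ) (L : Type) [Field L] [Algebra K L],
    ViG E j (0 : PtG E (j + 1) L) = 0 ∧
    (∀ X Y : PtG E (j + 1) L, ViG E j (X + Y) = ViG E j X + ViG E j Y) ∧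
    (∀ Q : PtG E j L, ViG E j (FiG E j Q) = 2 • Q) ∧
    (∀ X : PtG E (j + 1) L, FiG E j (ViG E j X) = 2 • X) ∧
    (∀ (S M : Type) [Field S] [Field M] [Algebra K S] [Algebra K M] [Algebra S L] [Algebra S M]
      [IsScalarTower K S L] [IsScalarTower K S M] (f : L →ₐ[S] M) (X : PtG E (j + 1) L),
      pmap (E j) f (ViG E j X) = ViG E j (pmap (E (j + 1)) f X)) ∧
    {X : PtG E (j + 1) L | ViG E j X = 0}.Finite ∧
      {X : PtG E (j + 1) L | ViG E j X = 0}.ncard ≤ 2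

private theorem sVh_EE (hPts : MP72W.S_Pts) (hMap : MP72W.S_Map) (hFV : MP72W.S_FV)
    (hFVh : MP72W.S_FVh) {K : Type} [Field K] [CharP K 2] (D γ : K) (hγ : γ ≠ 0) :
    SVh (MP72W.EE D γ) := by
  intro j L _ _
  obtain ⟨hEc1, ha1, hb1, hch, -⟩ := hMap K D γ hγ (j + 1) L
  obtain ⟨hF0, hF1, hinj, hV0, -, -, hVk, -⟩ := hFV K D γ hγ j L
  obtain ⟨hFa, hVF, hFV', hVa, hnat⟩ := hFVh K D γ hγ j L
  obtain ⟨p1, p2, -, p4, -, -, -, p8, p9, -⟩ := hPts L _ hEc1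
  have hVi : ∀ X : MP72W.Pt D γ (j + 1) L, ViG (MP72W.EE D γ) j X = MP72W.Vi D γ j X :=
    ViG_EE D γ hMap hPts hFV hFVh hγ j
  have hker : {X : PtG (MP72W.EE D γ) (j + 1) L | ViG (MP72W.EE D γ) j X = 0} =
      {X : MP72W.Pt D γ (j + 1) L | MP72W.px X = 0} := by
    ext X
    exact (Iff.of_eq (congrArg (· = 0) (hVi X))).trans (hVk X)
  have hsub : ∃ T : MP72W.Pt D γ (j + 1) L, {X : MP72W.Pt D γ (j + 1) L | MP72W.px X = 0} ⊆
      {0, T} := by
    by_cases h : ∃ T : MP72W.Pt D γ (j + 1) L, T ≠ 0 ∧ MP72W.px T = 0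
    · obtain ⟨T, hT0, hT⟩ := h
      refine ⟨T, ?_⟩
      intro X hX
      by_cases hX0 : X = 0
      · exact Or.inl hX0
      · right
        obtain ⟨x, y, hxy⟩ := (p1 T).resolve_left hT0
        have hx : x = 0 := by rw [← (p2 T x y hxy).2.1]; exact hT
        subst hx
        have hTT := (p8 T y hxy).1
        rcases p9 T X hT0 hX0 (hT.trans (Eq.symm hX)) with h | h
        · exact h
        · rw [h]
          exact neg_eq_of_add_eq_zero_right hTT
    · push Not at h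
      refine ⟨0, ?_⟩
      intro X hX
      by_contra hne
      refine h X (fun h0 => hne (Or.inl h0)) hX
  obtain ⟨T, hT⟩ := hsub
  refine ⟨?_, ?_, ?_, ?_, ?_, ?_, ?_⟩
  · rw [hVi]
    exact hV0
  · intro X Y
    rw [hVi, hVi, hVi]
    exact hVa X Y
  · intro Q
    rw [FiG_EE, hVi, two_nsmul]
    exact hVF Q
  · intro X
    rw [FiG_EE, hVi, two_nsmul]
    exact hFV' X
  · intro S M _ _ _ _ _ _ _ _ f X
    rw [hVi, ViG_EE D γ hMap hPts hFV hFVh hγ]
    exact (hnat S M f).2 X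
  · rw [hker]
    exact (Set.toFinite _).subset hT
  · rw [hker]
    refine (Set.ncard_le_ncard hT (Set.toFinite _)).trans ?_
    exact Set.ncard_insert_le _ _ |>.trans (by rw [Set.ncard_singleton])

theorem tVh2 (h1 : MP72W.S_Pts) (h2 : MP72W.S_Map) (h3 : MP72W.S_FV) (h4 : MP72W.S_FVh) :
    S_Vh2 := by
  intro K _ _ W hW
  have h : SVh (fr 2 W) := by
    rw [fr_eq W hW]
    exact sVh_EE h1 h2 h3 h4 _ _ (a6_ne W hW)
  exact h

end Pool.Agent.MP72V
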