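import Pool.Agent.Lib.MP_72e2e6_nt.WP.El2.Gen

/-!
# MP_72e2e6_nt, theorem T3p, the case `p = 2`: explicit formulas
-/

namespace Pool.Agent.MP72V

open WeierstrassCurve G2
open Pool.Agent.MP72W (pmap)
open Pool.Agent

open scoped Classical

private def SVx {K : Type} [Field K] (E : ℕ → WeierstrassCurve K) (a b : K) : Prop :=
  ∀ (L : Type) [Field L] [Algebra K L],
    (∀ (j : ℕ) (P : PtG E (j + 1) L), ViG E j P = 0 ↔ px P = 0) ∧
    (∀ (j : ℕ) (P : PtG E (j + 1) L) (x y : L), XY P x y → x ≠ 0 →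
      XY (ViG E j P) (x + algebraMap K L (b ^ 2 ^ j) / x)
        (x + ((y + algebraMap K L (b ^ 2 ^ j)) / x + algebraMap K L (a ^ 2 ^ j) + 1) *
          (x + algebraMap K L (b ^ 2 ^ j) / x))) ∧
    (∀ (j : ℕ) (P : PtG E j L) (x y η : L), XY P x y → x ≠ 0 →
      η ^ 2 + η = x + algebraMap K L (a ^ 2 ^ j) → ∃ Q : PtG E (j + 1) L,
        XY Q (y + x * η) (((y + (y + x * η)) / x + 1 + algebraMap K L (a ^ 2 ^ j)) *
          (y + x * η) + algebraMap K L (b ^ 2 ^ j)) ∧ ViG E j Q = P) ∧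
    ∀ (j : ℕ) (P : PtG E j L) (x y : L), XY P x y →
      y ^ 2 + x * y = x ^ 3 + algebraMap K L (a ^ 2 ^ j) * x ^ 2 +
        algebraMap K L (b ^ 2 ^ j)

private theorem sVx_EE (hPts : MP72W.S_Pts) (hMap : MP72W.S_Map) (hFV : MP72W.S_FV)
    (hFVh : MP72W.S_FVh) (hVsu : MP72W.S_Vsu) {K : Type} [Field K] [CharP K 2] (D γ : K)
    (hγ : γ ≠ 0) : SVx (MP72W.EE D γ) D γ := by
  intro L _ _
  have hVi : ∀ (j : ℕ) (X : MP72W.Pt D γ (j + 1) L),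
      ViG (MP72W.EE D γ) j X = MP72W.Vi D γ j X := by
    intro j X
    exact ViG_EE D γ hMap hPts hFV hFVh hγ j X
  refine ⟨?_, ?_, ?_, ?_⟩
  · intro j P
    rw [hVi]
    exact ((hFV K D γ hγ j L).2.2.2.2.2.2.1 P).trans (by rw [px_eq])
  · intro j P x y hxy hx
    rw [hVi]
    exact (hFV K D γ hγ j L).2.2.2.2.2.1 P x y hxy hx
  · intro j P x y η hxy hx hη
    obtain ⟨Q, hQ, hQV⟩ := (hVsu K D γ hγ L).1 j P x y η hxy hx hη
    refine ⟨Q, hQ, ?_⟩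
    rw [hVi]
    exact hQV
  · intro j P x y hxy
    obtain ⟨hEc, ha, hb, hch, -⟩ := hMap K D γ hγ j L
    have h := ((hPts L _ hEc).2.1 P x y hxy).2.2.2
    rw [ha, hb] at h
    exact h

theorem tVx2 (h1 : MP72W.S_Pts) (h2 : MP72W.S_Map) (h3 : MP72W.S_FV) (h4 : MP72W.S_FVh)
    (h5 : MP72W.S_Vsu) : S_Vx2 := by
  intro K _ _ W hW
  have h : SVx (fr 2 W) W.a₂ W.a₆ := by
    rw [fr_eq W hW]
    exact sVx_EE h1 h2 h3 h4 h5 _ _ (a6_ne W hW)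
  exact h

end Pool.Agent.MP72V
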