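import Pool.Agent.Lib.MP_72e2e6_nt.WP.El2.Defs
import Pool.Agent.Lib.MP_72e2e6_nt.W2.D.Spec
import Pool.Agent.Lib.MP_72e2e6_nt.P3.N.Spec
import Pool.Agent.Lib.MP_72e2e6_nt.P3.C.Spec

/-!
# MP_72e2e6_nt, theorem T3p, the case `p = 2` (block Ec2)

The analogues of the statements of `WP/El`, `WP/Fd`, `WP/La` for the curves
`y ^ 2 + x y = x ^ 3 + a₂ x ^ 2 + a₆` (`IsN2 W`) in characteristic two.
-/

namespace Pool.Agent.MP72V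

open Polynomial WeierstrassCurve
open Pool.Agent.MP72W (pmap)
open Pool.Agent.MP72P (EqN Kvs Kgs nm op rsH hP tac GFld Pls)
open Pool.Agent

open scoped Classical

/-- **Bas2**. Base change and homomorphisms of fields. -/
def S_Bas2 : Prop :=
  ∀ (K : Type) [Field K] [CharP K 2] (W : WeierstrassCurve K), IsN2 W →
    (∀ j : ℕ, IsN2 (fr 2 W j) ∧ fr 2 W j = W.map (iterateFrobenius K 2 j) ∧
      fr 2 W j = MP72W.EE W.a₂ W.a₆ j) ∧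
    (∀ i j : ℕ, fr 2 (fr 2 W i) j = fr 2 W (i + j)) ∧
    ∀ (L : Type) [Field L] [Algebra K L], CharP L 2 ∧ IsN2 (W⁄L).toAffine ∧
      MP72W.IsEc (W⁄L).toAffine ∧
      (W⁄L).toAffine.a₂ = algebraMap K L W.a₂ ∧ (W⁄L).toAffine.a₆ = algebraMap K L W.a₆ ∧
    ∀ (S M : Type) [Field S] [Field M] [Algebra K S] [Algebra K M] [Algebra S L] [Algebra S M]
      [IsScalarTower K S L] [IsScalarTower K S M] (f : L →ₐ[S] M),
      (∀ (P : (W⁄L).toAffine.Point) (x y : L), XY P x y → XY (pmap W f P) (f x) (f y)) ∧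
      Function.Injective (pmap W f) ∧
      (∀ P : (W⁄L).toAffine.Point, px (pmap W f P) = f (px P) ∧ py (pmap W f P) = f (py P)) ∧
      ∀ (P : (W⁄M).toAffine.Point) (x y : L), XY P (f x) (f y) →
        ∃ P₁ : (W⁄L).toAffine.Point, XY P₁ x y ∧ pmap W f P₁ = P

/-- **Fr2**. The Frobenius isogeny. -/
def S_Fr2 : Prop :=
  ∀ (K : Type) [Field K] [CharP K 2]
    (W : WeierstrassCurve K), IsN2 W → ∀ (j : ℕ) (L : Type) [Field L] [Algebra K L],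
    Fi 2 W j (0 : Pt 2 W j L) = 0 ∧
    (∀ (P : Pt 2 W j L) (x y : L), XY P x y → XY (Fi 2 W j P) (x ^ 2) (y ^ 2)) ∧
    (∀ P Q : Pt 2 W j L, Fi 2 W j (P + Q) = Fi 2 W j P + Fi 2 W j Q) ∧
    (∀ P Q : Pt 2 W j L, Fi 2 W j P = Fi 2 W j Q → P = Q) ∧
    (∀ (S M : Type) [Field S] [Field M] [Algebra K S] [Algebra K M] [Algebra S L] [Algebra S M]
      [IsScalarTower K S L] [IsScalarTower K S M] (f : L →ₐ[S] M) (P : Pt 2 W j L),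
      pmap (fr 2 W (j + 1)) f (Fi 2 W j P) = Fi 2 W j (pmap (fr 2 W j) f P)) ∧
    ∀ (P : Pt 2 W (j + 1) L) (x y : L), XY P (x ^ 2) (y ^ 2) →
      ∃ P₁ : Pt 2 W j L, XY P₁ x y ∧ Fi 2 W j P₁ = P

/-- **Vh2**. Properties of `Vi`. -/
def S_Vh2 : Prop :=
  ∀ (K : Type) [Field K] [CharP K 2]
    (W : WeierstrassCurve K), IsN2 W → ∀ (j : ℕ) (L : Type) [Field L] [Algebra K L],
    Vi 2 W j (0 : Pt 2 W (j + 1) L) = 0 ∧
    (∀ X Y : Pt 2 W (j + 1) L, Vi 2 W j (X + Y) = Vi 2 W j X + Vi 2 W j Y) ∧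
    (∀ Q : Pt 2 W j L, Vi 2 W j (Fi 2 W j Q) = 2 • Q) ∧
    (∀ X : Pt 2 W (j + 1) L, Fi 2 W j (Vi 2 W j X) = 2 • X) ∧
    (∀ (S M : Type) [Field S] [Field M] [Algebra K S] [Algebra K M] [Algebra S L] [Algebra S M]
      [IsScalarTower K S L] [IsScalarTower K S M] (f : L →ₐ[S] M) (X : Pt 2 W (j + 1) L),
      pmap (fr 2 W j) f (Vi 2 W j X) = Vi 2 W j (pmap (fr 2 W (j + 1)) f X)) ∧
    {X : Pt 2 W (j + 1) L | Vi 2 W j X = 0}.Finite ∧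
      {X : Pt 2 W (j + 1) L | Vi 2 W j X = 0}.ncard ≤ 2

/-- **It2**. The iterates. -/
def S_It2 : Prop :=
  ∀ (K : Type) [Field K] [CharP K 2]
    (W : WeierstrassCurve K), IsN2 W → ∀ (L : Type) [Field L] [Algebra K L],
    (∀ (n : ℕ) (P Q : Pt 2 W 0 L), Fn 2 W n (P + Q) = Fn 2 W n P + Fn 2 W n Q) ∧
    (∀ (n : ℕ) (P Q : Pt 2 W n L), Vn 2 W n (P + Q) = Vn 2 W n P + Vn 2 W n Q) ∧
    (∀ (n : ℕ) (P : Pt 2 W 0 L), Vn 2 W n (Fn 2 W n P) = 2 ^ n • P) ∧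
    (∀ (n : ℕ) (P : Pt 2 W n L), Fn 2 W n (Vn 2 W n P) = 2 ^ n • P) ∧
    (∀ (n : ℕ) (P Q : Pt 2 W 0 L), Fn 2 W n P = Fn 2 W n Q → P = Q) ∧
    (∀ (n : ℕ) (S M : Type) [Field S] [Field M] [Algebra K S] [Algebra K M] [Algebra S L]
      [Algebra S M] [IsScalarTower K S L] [IsScalarTower K S M] (f : L →ₐ[S] M),
      (∀ P : Pt 2 W 0 L, pmap (fr 2 W n) f (Fn 2 W n P) = Fn 2 W n (pmap (fr 2 W 0) f P)) ∧
      ∀ P : Pt 2 W n L, pmap (fr 2 W 0) f (Vn 2 W n P) = Vn 2 W n (pmap (fr 2 W n) f P)) ∧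
    (∀ n : ℕ, {P : Pt 2 W n L | Vn 2 W n P = 0}.Finite ∧
      {P : Pt 2 W n L | Vn 2 W n P = 0}.ncard ≤ 2 ^ n) ∧
    (∀ (k : ℕ) (R : Pt 2 W k L), IsR 2 W k R → addOrderOf R = 2 ^ k ∧
      ∀ P : Pt 2 W k L, Vn 2 W k P = 0 ↔ ∃ m : ℕ, P = m • R) ∧
    (∀ (k : ℕ) (R : Pt 2 W (k + 1) L), IsR 2 W (k + 1) R → IsR 2 W k (Vi 2 W k R)) ∧
    ∀ (k : ℕ) (R : Pt 2 W k L) (S M : Type) [Field S] [Field M] [Algebra K S] [Algebra K M]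
      [Algebra S L] [Algebra S M] [IsScalarTower K S L] [IsScalarTower K S M] (f : L →ₐ[S] M),
      IsR 2 W k R → IsR 2 W k (pmap (fr 2 W k) f R)

/-- **Rk2**. Over separably closed fields. -/
def S_Rk2 : Prop :=
  ∀ (K : Type) [Field K] [CharP K 2]
    (W : WeierstrassCurve K), IsN2 W → ∀ (L : Type) [Field L] [Algebra K L] [IsSepClosed L],
    ((∀ (k : ℕ) (P : Pt 2 W 0 L), ∃ X, Vn 2 W k X = P) ∧
      ∀ k : ℕ, ∃ R : Pt 2 W k L, IsR 2 W k R) ∧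
    ∀ j : ℕ, Infinite (Pt 2 W j L)

/-- **Wt2**. The homomorphism `E_k(L) → Lˣ / (Lˣ) ^ (2 ^ k)`. -/
def S_Wt2 : Prop :=
  ∀ (K : Type) [Field K] [CharP K 2]
    (W : WeierstrassCurve K), IsN2 W → ∀ (L : Type) [Field L] [Algebra K L] [IsSepClosed L]
    (k : ℕ) (R : Pt 2 W k L), IsR 2 W k R → ∃ w, IsWt2 W k R w

/-- **Wtc2**. Compatibility with homomorphisms of fields. -/
def S_Wtc2 : Prop :=
  ∀ (K : Type) [Field K] [CharP K 2]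
    (W : WeierstrassCurve K), IsN2 W → ∀ (L : Type) [Field L] [Algebra K L] [IsSepClosed L]
    (k : ℕ) (R : Pt 2 W k L), IsR 2 W k R → ∀ w, IsWt2 W k R w →
    ∀ (S M : Type) [Field S] [Field M] [Algebra K S] [Algebra K M] [Algebra S L]
      [Algebra S M] [IsScalarTower K S L] [IsScalarTower K S M] (f : L →ₐ[S] M)
      (R' : Pt 2 W k M), IsR 2 W k R' → ∀ w', IsWt2 W k R' w' → ∀ m : ℕ,
      pmap (fr 2 W k) f R = m • R' →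
      ∀ P, EqN (2 ^ k) (f (w P)) (w' (pmap (fr 2 W k) f P) ^ m)

/-! ### Explicit formulas for `Vi` -/

/-- **Vx2**. The explicit formulas (`MP72W.S_FV`, `MP72W.S_Vsu` for `Vi 2 W j`). Here `a = W.a₂ ^ 2 ^ j`,
`b = W.a₆ ^ 2 ^ j`. -/
def S_Vx2 : Prop :=
  ∀ (K : Type) [Field K] [CharP K 2]
    (W : WeierstrassCurve K), IsN2 W → ∀ (L : Type) [Field L] [Algebra K L],
    (∀ (j : ℕ) (P : Pt 2 W (j + 1) L), Vi 2 W j P = 0 ↔ px P = 0) ∧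
    (∀ (j : ℕ) (P : Pt 2 W (j + 1) L) (x y : L), XY P x y → x ≠ 0 →
      XY (Vi 2 W j P) (x + algebraMap K L (W.a₆ ^ 2 ^ j) / x)
        (x + ((y + algebraMap K L (W.a₆ ^ 2 ^ j)) / x + algebraMap K L (W.a₂ ^ 2 ^ j) + 1) *
          (x + algebraMap K L (W.a₆ ^ 2 ^ j) / x))) ∧
    (∀ (j : ℕ) (P : Pt 2 W j L) (x y η : L), XY P x y → x ≠ 0 →
      η ^ 2 + η = x + algebraMap K L (W.a₂ ^ 2 ^ j) → ∃ Q : Pt 2 W (j + 1) L,
        XY Q (y + x * η) (((y + (y + x * η)) / x + 1 + algebraMap K L (W.a₂ ^ 2 ^ j)) *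
          (y + x * η) + algebraMap K L (W.a₆ ^ 2 ^ j)) ∧ Vi 2 W j Q = P) ∧
    ∀ (j : ℕ) (P : Pt 2 W j L) (x y : L), XY P x y →
      y ^ 2 + x * y = x ^ 3 + algebraMap K L (W.a₂ ^ 2 ^ j) * x ^ 2 +
        algebraMap K L (W.a₆ ^ 2 ^ j)

end Pool.Agent.MP72V
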