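import Pool.Agent.Lib.MP_72e2e6_nt.WP.El2.Defs
import Pool.Agent.Lib.MP_72e2e6_nt.WP.El2.Spec
import Pool.Agent.Lib.MP_72e2e6_nt.P3.N.Defs
import Pool.Agent.Lib.MP_72e2e6_nt.P3.R.DefsC

/-!
# MP_72e2e6_nt, theorem T3p, the case `p = 2`: the interface between the elliptic block (Ec2, EN2) and the
descent (`P3/E2`)

The statements are the ones of `P3/F/Ifc.lean`, `P3/EN/Spec.lean` with `p = 2` and `IsN2 W` in the place of
`IsNf W`. The other statements (`S_Bas2`, `S_Fr2`, `S_Vh2`, `S_It2`, `S_Rk2`, `S_Wt2`, `S_Wtc2`) are in `WP/El2/Spec.lean`.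
-/

namespace Pool.Agent.MP72V

open WeierstrassCurve
open Pool.Agent.MP72W (pmap)
open Pool.Agent.MP72P (EqN Kvs Kgs GFld HUn HLo IsQ RatV HomP)

open scoped Classical

/-- **UnW2**. Outside a finite set of places everything is unramified (`S_UnW`). -/
def S_UnW2 : Prop :=
  ∀ (K : Type) [Field K] [CharP K 2], GFld 2 K →
    ∀ W : WeierstrassCurve K, IsN2 W →
    ∃ (m : ℕ) (av₀ : Fin m → AbsoluteValue K ℝ), (∀ i, (av₀ i).IsNontrivial) ∧
      ∀ (J : Type) (av : J → AbsoluteValue K ℝ), (∀ i, ∃ j, (av j).IsEquiv (av₀ i)) →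
        ∀ k, HUn 2 W av k ∧ HWu2 W av k

/-- **LoW2**. The local points for deeply ramified `D` (`S_LoW`). -/
def S_LoW2 : Prop :=
  ∀ (K : Type) [Field K] [CharP K 2], GFld 2 K →
    ∀ W : WeierstrassCurve K, IsN2 W → ∀ v : AbsoluteValue K ℝ, v.IsNontrivial →
    ∀ k : ℕ, ∃ M : ℝ, ∀ D : K,
      (∀ y : v.Completion, M ≤ ‖algebraMap K v.Completion D - (y ^ 2 - y)‖) →
      ∀ Q : Pt 2 W k (Kvs v), IsQ 2 W k Q → HLo 2 W k v D Q

/-- **EN2**. The endgame (`S_EN`). -/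
def S_EN2 : Prop :=
  ∀ (K : Type) [Field K] [CharP K 2], GFld 2 K →
    ∀ (W : WeierstrassCurve K), IsN2 W → ∀ h : Gal(Kgs K/K) → ZMod 2, HomP 2 h →
    ∀ k : ℕ, 1 ≤ k → (∀ v ∈ RatV W h, ∃ u ∈ RatV W h, 2 ^ (k - 1) • v = 2 ^ k • u) →
      (RatV W h).Finite

end Pool.Agent.MP72V
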