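import Pool.Agent.Lib.MP_72e2e6_nt.W2.D.Defs
import Pool.Agent.Lib.MP_72e2e6_nt.P3.E.DefsB

/-!
# MP_72e2e6_nt, theorem T3p, the case `p = 2`: definitions

The curves are `W : y ^ 2 + x y = x ^ 3 + a₂ x ^ 2 + a₆` (`IsN2 W`) in characteristic two. All
definitions of `WP/El/Defs.lean` (`fr`, `Fi`, `Vi`, `Fn`, `Vn`, `IsR`, `Pt`) and of `P3/E` are used with
`p = 2`. `fr 2 W j` is `MP72W.EE W.a₂ W.a₆ j`.
-/

namespace Pool.Agent.MP72V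

open WeierstrassCurve
open Pool.Agent.MP72W (pmap)
open Pool.Agent.MP72P (EqN Kvs Kgs Knr LF nm IsGeo)

open scoped Classical

/-- The curves `y ^ 2 + x y = x ^ 3 + a₂ x ^ 2 + a₆` with `a₆` a unit. -/
structure IsN2 {R : Type} [CommRing R] (W : WeierstrassCurve R) : Prop where
  a1 : W.a₁ = 1
  a3 : W.a₃ = 0
  a4 : W.a₄ = 0
  a6 : IsUnit W.a₆

section

variable {K : Type} [Field K] (W : WeierstrassCurve K) {L : Type} [Field L] [Algebra K L]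

/-- The properties of the homomorphism `E_k(L) → Lˣ / (Lˣ) ^ (2 ^ k)` given by `MP72W.Wf k R`. -/
structure IsWt2 (k : ℕ) (R : Pt 2 W k L) (w : Pt 2 W k L → L) : Prop where
  ne : ∀ P, w P ≠ 0
  add : ∀ P Q, EqN (2 ^ k) (w (P + Q)) (w P * w Q)
  gen : ∀ P, P ∉ AddSubgroup.zmultiples R → EqN (2 ^ k) (w P) (MP72W.Wf k R P)
  ker : ∀ P, EqN (2 ^ k) (w P) 1 ↔ ∃ q, P = Fn 2 W k q

/-- The functions `w` are unramified outside the places `av j`. -/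
def HWu2 {J : Type} (av : J → AbsoluteValue K ℝ) (k : ℕ) : Prop :=
  ∀ v : AbsoluteValue K ℝ, v.IsNontrivial → (∀ j, ¬ v.IsEquiv (av j)) →
    ∀ (Q : ℕ) (ϖ : K) (R₀ : Finset K), LF v 2 Q ϖ R₀ →
    ∀ R : Pt 2 W k (Kvs v), IsR 2 W k R → ∀ w, IsWt2 W k R w →
    ∀ P : Pt 2 W k (Kvs v), (∀ g : Gal(Kvs v/v.Completion), IsGeo 2 g →
      pmap (fr 2 W k) (g : Kvs v →ₐ[v.Completion] Kvs v) P = P) →
    ∃ r ∈ Knr 2 v, r ≠ 0 ∧ EqN (2 ^ k) (w P) r ∧ ∃ x : ℤ, nm v r = v ϖ ^ x ∧ (2 : ℤ) ^ k ∣ x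

end

end Pool.Agent.MP72V
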