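import Pool.Agent.Lib.MP_72e2e6_nt.WP.El2.SpecL

/-!
# MP_72e2e6_nt, theorem T3p, the case `p = 2`: the local points for deeply ramified `D`
-/

namespace Pool.Agent.MP72V

open WeierstrassCurve
open Pool.Agent.MP72W (pmap)
open Pool.Agent.MP72P (EqN Kvs Kgs nm op rsH hP tac GFld Pls HLo IsQ)
open Pool.Agent

open scoped Classical

section low2

variable {K : Type} [Field K] [CharP K 2] (W : WeierstrassCurve K)
  {S L : Type} [NormedField S] [IsUltrametricDist S] [Algebra K S] [Field L] [Algebra K L]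
  [Algebra S L] [IsScalarTower K S L] (h : Gal(L/S) → ZMod 2)

/-- `P` is a point of the twist by `h`. -/
private def Tw (j : ℕ) (P : Pt 2 W j L) : Prop :=
  ∀ g : Gal(L/S), (h g = 0 → pmap (fr 2 W j) (g : L →ₐ[S] L) P = P) ∧
    (h g = 1 → pmap (fr 2 W j) (g : L →ₐ[S] L) P = -P)

private theorem z2 (c : ZMod 2) : c = 0 ∨ c = 1 := by
  revert c; decide

private theorem op0 : op L (0 : ZMod 2) = 0 := by simp [op]

private theorem op1 : op L (1 : ZMod 2) = 1 := by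
  have : (1 : ZMod 2).val = 1 := rfl
  simp [op, this]

/-- The lifting step. -/
private theorem lift (hBas : S_Bas2) (hVx : S_Vx2) (hPts : MP72W.S_Pts) (hW : IsN2 W)
    (hAS : ∀ z : S, ‖z‖ < 1 → ∃ ξ : S, ‖ξ‖ < 1 ∧ ξ ^ 2 - ξ = z) (j : ℕ) (P : Pt 2 W j L) (x : S)
    (y : L) (hxy : XY P (algebraMap S L x) y) (hx0 : x ≠ 0)
    (hx : ‖algebraMap K S (W.a₆ ^ 2 ^ j)‖ < ‖x‖ ^ 2) (hT : Tw W h j P) :
    ∃ (P' : Pt 2 W (j + 1) L) (x' : S) (y' : L), XY P' (algebraMap S L x') y' ∧ ‖x'‖ = ‖x‖ ∧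
      Tw W h (j + 1) P' ∧ Vi 2 W j P' = P := by
  obtain ⟨b1, -, b3⟩ := hBas K W hW
  obtain ⟨hch, -, -, -, -⟩ := b3 L
  obtain ⟨-, -, hBj⟩ := hBas K (fr 2 W j) (b1 j).1
  obtain ⟨-, -, hBj1⟩ := hBas K (fr 2 W (j + 1)) (b1 (j + 1)).1
  obtain ⟨-, -, hEcj, -, -, hmj⟩ := hBj L
  obtain ⟨-, -, hEcj1, -, -, hmj1⟩ := hBj1 L
  obtain ⟨p1, p2, p3, p4, p5, -⟩ := hPts L _ hEcj
  obtain ⟨-, q2, -, q4, q5, -⟩ := hPts L _ hEcj1
  obtain ⟨-, -, v3, v4⟩ := hVx K W hW L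
  have he := v4 j P _ _ hxy
  set a : L := algebraMap K L (W.a₂ ^ 2 ^ j) with ha
  set b₀ : S := algebraMap K S (W.a₆ ^ 2 ^ j) with hb₀
  have hb : algebraMap K L (W.a₆ ^ 2 ^ j) = algebraMap S L b₀ := by
    rw [hb₀, ← IsScalarTower.algebraMap_apply]
  rw [hb] at he
  have hX0 : algebraMap S L x ≠ 0 := (map_ne_zero_iff _ (algebraMap S L).injective).2 hx0
  have hlt : ‖b₀ / x ^ 2‖ < 1 := by
    rw [norm_div, norm_pow, div_lt_one (by positivity)]
    exact hx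
  obtain ⟨ξ, hξ1, hξ⟩ := hAS _ hlt
  set X : L := algebraMap S L (x * (ξ + 1)) with hX
  set xl : L := algebraMap S L x with hxl
  set z : L := algebraMap S L ξ with hz
  have hzz : z ^ 2 - z = algebraMap S L b₀ / xl ^ 2 := by
    rw [hz, hxl, ← map_pow, ← map_sub, hξ, map_div₀, map_pow]
  have hXe : X = xl * (z + 1) := by
    rw [hX, map_mul, map_add, map_one]
  set η : L := (X + y) / xl with hη
  have two : (2 : L) = 0 := CharTwo.two_eq_zero
  have hb2 : algebraMap S L b₀ = (z ^ 2 - z) * xl ^ 2 := by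
    rw [hzz, div_mul_cancel₀ _ (pow_ne_zero 2 hX0)]
  have hηe : η ^ 2 + η = xl + a := by
    have h1 : xl ^ 2 * (η ^ 2 + η) = xl ^ 2 * (xl + a) := by
      have h2 : xl * η = X + y := by rw [hη, mul_div_cancel₀ _ hX0]
      have h3 : xl ^ 2 * (η ^ 2 + η) = (xl * η) ^ 2 + xl * (xl * η) := by ring
      rw [h3, h2, hXe]
      rw [hb2] at he
      linear_combination he + (xl ^ 2 * z ^ 2 + xl * z * y + xl ^ 2 * z + xl * y + xl ^ 2) * two
    exact mul_left_cancel₀ (pow_ne_zero 2 hX0) h1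
  obtain ⟨P', hP', hVP'⟩ := v3 j P xl y η hxy hX0 hηe
  have hyX : y + xl * η = X := by
    have h2 : xl * η = X + y := by rw [hη, mul_div_cancel₀ _ hX0]
    rw [h2]
    linear_combination y * two
  rw [hyX] at hP'
  refine ⟨P', x * (ξ + 1), _, hP', ?_, ?_, hVP'⟩
  · have h1 : ‖ξ + 1‖ = 1 := by
      have h2 := IsUltrametricDist.norm_add_eq_max_of_norm_ne_norm (x := ξ) (y := 1)
        (by rw [norm_one]; exact hξ1.ne)
      rw [h2, norm_one, max_eq_right hξ1.le]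
    rw [norm_mul, h1, mul_one]
  · intro g
    have hgS : ∀ s : S, g (algebraMap S L s) = algebraMap S L s := fun s => g.commutes s
    have hga : g a = a := by
      rw [ha, IsScalarTower.algebraMap_apply K S L]
      exact hgS _
    have hgb : g (algebraMap S L b₀) = algebraMap S L b₀ := hgS _
    obtain ⟨m1, m2, -, -⟩ := hmj S L (g : L →ₐ[S] L)
    obtain ⟨m1', m2', -, -⟩ := hmj1 S L (g : L →ₐ[S] L)
    have e1 := m1 P _ _ hxy
    have e2 := m1' P' _ _ hP'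
    have hgx : (g : L →ₐ[S] L) xl = xl := hgS x
    have hgX : (g : L →ₐ[S] L) X = X := hgS _
    refine ⟨?_, ?_⟩
    · intro hg
      rw [(hT g).1 hg, hgx] at e1
      have hgy : (g : L →ₐ[S] L) y = y := by
        have i1 := (p2 P _ _ e1).2.2.1
        have i2 := (p2 P _ _ hxy).2.2.1
        rw [← i1, i2]
      refine q4 _ _ _ _ ?_ hP'
      have e3 : (g : L →ₐ[S] L) (((y + X) / xl + 1 + a) * X + algebraMap K L (W.a₆ ^ 2 ^ j)) =
          ((y + X) / xl + 1 + a) * X + algebraMap K L (W.a₆ ^ 2 ^ j) := by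
        rw [hb, map_add, map_mul, map_add, map_add, map_div₀, map_add, hgy, hgX, hgx, map_one]
        rw [show (g : L →ₐ[S] L) a = a from hga,
          show (g : L →ₐ[S] L) (algebraMap S L b₀) = algebraMap S L b₀ from hgb]
      rw [hgX, e3] at e2
      exact e2
    · intro hg
      rw [(hT g).2 hg, hgx] at e1
      have hgy : (g : L →ₐ[S] L) y = xl + y := by
        have i1 := (p2 (-P) _ _ e1).2.2.1
        have i2 := (p2 (-P) _ _ (p5 P _ _ hxy)).2.2.1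
        rw [← i1, i2]
      refine q4 _ _ _ _ ?_ (q5 P' _ _ hP')
      have e3 : (g : L →ₐ[S] L) (((y + X) / xl + 1 + a) * X + algebraMap K L (W.a₆ ^ 2 ^ j)) =
          X + (((y + X) / xl + 1 + a) * X + algebraMap K L (W.a₆ ^ 2 ^ j)) := by
        rw [hb, map_add, map_mul, map_add, map_add, map_div₀, map_add, hgy, hgX, hgx, map_one]
        rw [show (g : L →ₐ[S] L) a = a from hga,
          show (g : L →ₐ[S] L) (algebraMap S L b₀) = algebraMap S L b₀ from hgb]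
        field_simp
        ring
      rw [hgX, e3] at e2
      exact e2

/-- Iterated lifting. -/
private theorem lifts (hBas : S_Bas2) (hVx : S_Vx2) (hPts : MP72W.S_Pts) (hW : IsN2 W)
    (hAS : ∀ z : S, ‖z‖ < 1 → ∃ ξ : S, ‖ξ‖ < 1 ∧ ξ ^ 2 - ξ = z) (P : Pt 2 W 0 L) (x : S)
    (y : L) (hxy : XY P (algebraMap S L x) y) (hx0 : x ≠ 0) (hT : Tw W h 0 P) (k : ℕ)
    (hx : ∀ j ≤ k, ‖algebraMap K S (W.a₆ ^ 2 ^ j)‖ < ‖x‖ ^ 2) :
    ∃ (P' : Pt 2 W k L) (x' : S) (y' : L), XY P' (algebraMap S L x') y' ∧ ‖x'‖ = ‖x‖ ∧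
      Tw W h k P' ∧ Vn 2 W k P' = P := by
  induction k with
  | zero => exact ⟨P, x, y, hxy, rfl, hT, rfl⟩
  | succ k ih =>
    obtain ⟨P', x', y', h1, h2, h3, h4⟩ := ih (fun j hj => hx j (by omega))
    have hx'0 : x' ≠ 0 := by
      intro h0
      rw [h0, norm_zero] at h2
      exact hx0 (norm_eq_zero.1 h2.symm)
    obtain ⟨P'', x'', y'', i1, i2, i3, i4⟩ := lift W h hBas hVx hPts hW hAS k P' x' y' h1 hx'0
      (by rw [h2]; exact hx k (by omega)) h3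
    refine ⟨P'', x'', y'', i1, i2.trans h2, i3, ?_⟩
    show Vn 2 W k (Vi 2 W k P'') = P
    rw [i4, h4]

private theorem sqi [CharP L 2] {s t : L} (h : s ^ 2 = t ^ 2) : s = t := by
  have h1 : (s - t) ^ 2 = 0 := by
    rw [CharTwo.sub_eq_add, CharTwo.add_sq, h, CharTwo.add_self_eq_zero]
  exact sub_eq_zero.1 ((pow_eq_zero_iff two_ne_zero).1 h1)

/-- The points of the twist. -/
private theorem pts (hBas : S_Bas2) (hVx : S_Vx2) (hIt : S_It2) (hPts : MP72W.S_Pts)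
    (hW : IsN2 W) (hfix : ∀ z : L, (∀ g : Gal(L/S), g z = z) → ∃ z₀ : S, algebraMap S L z₀ = z)
    (hAS : ∀ z : S, ‖z‖ < 1 → ∃ ξ : S, ‖ξ‖ < 1 ∧ ξ ^ 2 - ξ = z) (D : S) (hTh : IsTh 2 D h)
    (T : Pt 2 W 0 L) (hT0 : T ≠ 0) (hT2 : T + T = 0) (k : ℕ) (M : ℝ) (hM1 : 1 < M)
    (hMa : ‖algebraMap K S W.a₂‖ < M)
    (hMb : ∀ j ≤ k, ‖algebraMap K S (W.a₆ ^ 2 ^ j)‖ < M)
    (hD : ∀ y : S, M ≤ ‖D - (y ^ 2 - y)‖) (P : Pt 2 W 0 L) (hP : Tw W h 0 P) :
    (∀ g : Gal(L/S), pmap (fr 2 W 0) (g : L →ₐ[S] L) T = T) ∧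
    ∃ (m : ℕ) (P' : Pt 2 W k L), Tw W h k P' ∧ P = m • T + Vn 2 W k P' := by
  obtain ⟨b1, -, b3⟩ := hBas K W hW
  obtain ⟨hch, -, -, -, -⟩ := b3 L
  obtain ⟨-, -, hBj⟩ := hBas K (fr 2 W 0) (b1 0).1
  obtain ⟨-, -, hEc, ha2, ha6, hm⟩ := hBj L
  obtain ⟨p1, p2, p3, p4, p5, p6, p7, p8, -, p10⟩ := hPts L _ hEc
  obtain ⟨-, -, -, v4⟩ := hVx K W hW L
  obtain ⟨-, i2, -⟩ := hIt K W hW L
  have hVn0 : Vn 2 W k (0 : Pt 2 W k L) = 0 := by
    have := i2 k 0 0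
    rw [add_zero] at this
    exact left_eq_add.1 this
  have hTw0 : Tw W h k (0 : Pt 2 W k L) := by
    intro g
    rw [map_zero, neg_zero]
    exact ⟨fun _ => rfl, fun _ => rfl⟩
  have two : (2 : L) = 0 := CharTwo.two_eq_zero
  -- the point of order two
  obtain ⟨xT, β, hT⟩ := (p1 T).resolve_left hT0
  have hxT : xT = 0 := by
    by_contra hne
    have h1 := (p7 T xT β hT hne).2
    exact (p2 _ _ _ h1).1 hT2
  subst hxT
  have hβ2 : β ^ 2 = algebraMap K L W.a₆ := by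
    have h1 := v4 0 T 0 β hT
    rw [pow_zero, pow_one, pow_one] at h1
    linear_combination h1
  have hgK : ∀ (g : Gal(L/S)) (z : K), g (algebraMap K L z) = algebraMap K L z := by
    intro g z
    rw [IsScalarTower.algebraMap_apply K S L]
    exact g.commutes _
  obtain ⟨β₀, hβ₀⟩ := hfix β (by
    intro g
    refine sqi ?_
    rw [← map_pow, hβ2, hgK])
  have hgT : ∀ g : Gal(L/S), pmap (fr 2 W 0) (g : L →ₐ[S] L) T = T := by
    intro g
    have h1 := (hm S L (g : L →ₐ[S] L)).1 T 0 β hT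
    have h2 : (g : L →ₐ[S] L) β = β := by
      rw [← hβ₀]
      exact g.commutes _
    rw [h2, map_zero] at h1
    exact p4 _ _ _ _ h1 hT
  refine ⟨hgT, ?_⟩
  by_cases hP0 : P = 0
  · refine ⟨0, 0, hTw0, ?_⟩
    rw [zero_nsmul, zero_add, hVn0, hP0]
  obtain ⟨x, y, hxy⟩ := (p1 P).resolve_left hP0
  have he := v4 0 P x y hxy
  rw [pow_zero, pow_one, pow_one, ← hβ2] at he
  by_cases hx : x = 0
  · subst hx
    have hy : y = β := sqi (by linear_combination he)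
    refine ⟨1, 0, hTw0, ?_⟩
    rw [one_nsmul, hVn0, add_zero]
    rw [hy] at hxy
    exact p4 _ _ _ _ hxy hT
  -- the coordinates under the Galois group
  have hg : ∀ g : Gal(L/S), g x = x ∧ (h g = 0 → g y = y) ∧ (h g = 1 → g y = x + y) := by
    intro g
    have e1 := (hm S L (g : L →ₐ[S] L)).1 P x y hxy
    rcases z2 (h g) with h0 | h0
    · rw [(hP g).1 h0] at e1
      have j1 := p2 P _ _ e1
      have j2 := p2 P _ _ hxy
      refine ⟨?_, fun _ => ?_, fun h1 => ?_⟩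
      · show (g : L →ₐ[S] L) x = x
        rw [← j1.2.1, j2.2.1]
      · show (g : L →ₐ[S] L) y = y
        rw [← j1.2.2.1, j2.2.2.1]
      · rw [h0] at h1
        exact absurd h1 (by decide)
    · rw [(hP g).2 h0] at e1
      have j1 := p2 (-P) _ _ e1
      have j2 := p2 (-P) _ _ (p5 P _ _ hxy)
      refine ⟨?_, fun h1 => ?_, fun _ => ?_⟩
      · show (g : L →ₐ[S] L) x = x
        rw [← j1.2.1, j2.2.1]
      · rw [h0] at h1
        exact absurd h1 (by decide)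
      · show (g : L →ₐ[S] L) y = x + y
        rw [← j1.2.2.1, j2.2.2.1]
  obtain ⟨θ, hθ, hgθ⟩ := hTh
  obtain ⟨x₀, hx₀⟩ := hfix x fun g => (hg g).1
  obtain ⟨t₀, ht₀⟩ := hfix (y / x + θ) (by
    intro g
    obtain ⟨g1, g2, g3⟩ := hg g
    rcases z2 (h g) with h0 | h0
    · rw [map_add, map_div₀, g1, g2 h0, hgθ, h0, op0, add_zero]
    · rw [map_add, map_div₀, g1, g3 h0, hgθ, h0, op1, add_div, div_self hx]
      linear_combination two)
  have hx₀0 : x₀ ≠ 0 := by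
    rintro rfl
    exact hx (by rw [← hx₀, map_zero])
  -- the main identity
  have hid : x₀ + β₀ / x₀ = (D - ((t₀ + β₀ / x₀) ^ 2 - (t₀ + β₀ / x₀))) +
      algebraMap K S W.a₂ := by
    apply (algebraMap S L).injective
    have ha : algebraMap S L (algebraMap K S W.a₂) = algebraMap K L W.a₂ := by
      rw [← IsScalarTower.algebraMap_apply]
    simp only [map_add, map_sub, map_pow, map_div₀]
    rw [hx₀, hβ₀, ht₀, ha, ← hθ]
    have he' : (y / x) ^ 2 + y / x = x + algebraMap K L W.a₂ + (β / x) ^ 2 := by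
      field_simp
      linear_combination he
    have e2 : (y / x + θ + β / x) ^ 2 = (y / x) ^ 2 + θ ^ 2 + (β / x) ^ 2 := by
      rw [CharTwo.add_sq, CharTwo.add_sq]
    rw [e2]
    linear_combination he' + (x + (β / x) ^ 2 - y / x) * two
  have hnorm : M ≤ max ‖x₀‖ ‖β₀ / x₀‖ := by
    have h1 := hD (t₀ + β₀ / x₀)
    have h2 : ‖x₀ + β₀ / x₀‖ = ‖D - ((t₀ + β₀ / x₀) ^ 2 - (t₀ + β₀ / x₀))‖ := by
      rw [hid]
      rw [IsUltrametricDist.norm_add_eq_max_of_norm_ne_norm (by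
        intro h3
        rw [h3] at h1
        linarith), max_eq_left]
      linarith
    calc M ≤ ‖x₀ + β₀ / x₀‖ := by rw [h2]; exact h1
      _ ≤ max ‖x₀‖ ‖β₀ / x₀‖ := IsUltrametricDist.norm_add_le_max _ _
  have hlift : ∀ z : S, M ≤ ‖z‖ → ∀ j ≤ k, ‖algebraMap K S (W.a₆ ^ 2 ^ j)‖ < ‖z‖ ^ 2 := by
    intro z hz j hj
    have h1 := hMb j hj
    nlinarith
  rcases le_max_iff.1 hnorm with h1 | h1
  · obtain ⟨P', x', y', -, -, q3, q4⟩ := lifts W h hBas hVx hPts hW hAS P x₀ y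
      (by rw [hx₀]; exact hxy) hx₀0 hP k (hlift x₀ h1)
    refine ⟨0, P', q3, ?_⟩
    rw [zero_nsmul, zero_add, q4]
  · have hPT : P + T ≠ 0 := by
      intro h0
      have h2 : P = -T := eq_neg_of_add_eq_zero_left h0
      have h3 := p5 T _ _ hT
      rw [← h2] at h3
      have h4 := (p2 P _ _ h3).2.1
      rw [(p2 P _ _ hxy).2.1] at h4
      exact hx h4
    obtain ⟨x₂, y₂, hxy₂⟩ := (p1 (P + T)).resolve_left hPT
    have hsl := p6 P T x y 0 β hxy hT hx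
    have hx₂ : x₂ = algebraMap S L (β₀ / x₀) := by
      have j1 := (p10 P T hP0 hT0 hPT).1
      rw [(p2 _ _ _ hxy₂).2.1, (p2 _ _ _ hxy).2.1, (p2 _ _ _ hT).2.1, hsl, ha2] at j1
      have ha : (fr 2 W 0).a₂ = W.a₂ := by simp [fr]
      rw [ha] at j1
      rw [j1, map_div₀, hx₀, hβ₀]
      have h5 : (y + β) ^ 2 = y ^ 2 + β ^ 2 := CharTwo.add_sq _ _
      rw [add_zero, add_zero, div_pow, h5]
      field_simp
      linear_combination he + (algebraMap K L W.a₂ * x ^ 2 + x ^ 3 + β ^ 2) * two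
    have hneg : -T = T := neg_eq_of_add_eq_zero_right hT2
    have hTwPT : Tw W h 0 (P + T) := by
      intro g
      rw [map_add, hgT g]
      refine ⟨fun h0 => by rw [(hP g).1 h0], fun h0 => ?_⟩
      rw [(hP g).2 h0, neg_add, hneg]
    rw [hx₂] at hxy₂
    have hz0 : β₀ / x₀ ≠ 0 := by
      intro h0
      rw [h0, norm_zero] at h1
      linarith
    obtain ⟨P', x', y', -, -, q3, q4⟩ := lifts W h hBas hVx hPts hW hAS (P + T) (β₀ / x₀) y₂
      hxy₂ hz0 hTwPT k (hlift _ h1)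
    refine ⟨1, P', q3, ?_⟩
    rw [one_nsmul, q4, add_comm P T, ← add_assoc, hT2, zero_add]

/-- The vectors of points. -/
private theorem vecs (hBas : S_Bas2) (hVx : S_Vx2) (hIt : S_It2) (hPts : MP72W.S_Pts)
    (hW : IsN2 W) (hfix : ∀ z : L, (∀ g : Gal(L/S), g z = z) → ∃ z₀ : S, algebraMap S L z₀ = z)
    (hAS : ∀ z : S, ‖z‖ < 1 → ∃ ξ : S, ‖ξ‖ < 1 ∧ ξ ^ 2 - ξ = z) (D : S) (hTh : IsTh 2 D h)
    (k : ℕ) (Q : Pt 2 W k L) (hQ : IsQ 2 W k Q) (M : ℝ) (hM1 : 1 < M)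
    (hMa : ‖algebraMap K S W.a₂‖ < M)
    (hMb : ∀ j ≤ k, ‖algebraMap K S (W.a₆ ^ 2 ^ j)‖ < M)
    (hD : ∀ y : S, M ≤ ‖D - (y ^ 2 - y)‖) [inst : DecidableEq L]
    (e : ZMod 2 → Pt 2 W 0 L) (he0 : ∑ l, e l = 0)
    (he : ∀ g : Gal(L/S), tac (fr 2 W 0) (h g) (g : L →ₐ[S] L) e = e) :
    ∃ (m : ℤ) (u : ZMod 2 → Pt 2 W k L), ∑ l, u l = 0 ∧
      (∀ g : Gal(L/S), tac (fr 2 W k) (h g) (g : L →ₐ[S] L) u = u) ∧
      ∀ l, e l = m • Vn 2 W k Q + Vn 2 W k (u l) := by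
  obtain rfl : inst = fun a b => Classical.propDecidable (a = b) := Subsingleton.elim _ _
  obtain ⟨hQ0, hQ2⟩ := hQ
  rw [two_nsmul] at hQ2
  have hs : ∀ (j : ℕ) (w : ZMod 2 → Pt 2 W j L), ∑ l, w l = w 0 + w 1 := by
    intro j w
    exact Fin.sum_univ_two w
  have he1 : e 1 = -e 0 := by
    have h1 := he0
    rw [hs] at h1
    exact eq_neg_of_add_eq_zero_right h1
  have hTw : Tw W h 0 (e 0) := by
    intro g
    refine ⟨fun h0 => ?_, fun h0 => ?_⟩
    · have h1 := congrFun (he g) 0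
      rw [h0] at h1
      exact h1
    · have h1 := congrFun (he g) 1
      rw [h0] at h1
      have h2 : pmap (fr 2 W 0) (g : L →ₐ[S] L) (e (1 - 1)) = e 1 := h1
      rw [sub_self, he1] at h2
      exact h2
  obtain ⟨-, m, P', hP', hm⟩ := pts W h hBas hVx hIt hPts hW hfix hAS D hTh (Vn 2 W k Q) hQ0 hQ2 k M
    hM1 hMa hMb hD (e 0) hTw
  have hneg : -Vn 2 W k Q = Vn 2 W k Q := neg_eq_of_add_eq_zero_right hQ2
  obtain ⟨-, i2, -⟩ := hIt K W hW L
  have hVneg : Vn 2 W k (-P') = -Vn 2 W k P' := by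
    have h0 := i2 k 0 0
    rw [add_zero] at h0
    have h0' : Vn 2 W k (0 : Pt 2 W k L) = 0 := left_eq_add.1 h0
    have h1 := i2 k P' (-P')
    rw [add_neg_cancel, h0'] at h1
    exact eq_neg_of_add_eq_zero_right h1.symm
  refine ⟨(m : ℤ), fun l => if l = 0 then P' else -P', ?_, ?_, ?_⟩
  · rw [hs]
    simp
  · intro g
    funext i
    show pmap (fr 2 W k) (g : L →ₐ[S] L) (if i - h g = 0 then P' else -P') =
      if i = 0 then P' else -P'
    rcases z2 (h g) with h0 | h0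
    · rw [h0, sub_zero]
      rcases z2 i with hi | hi
      · rw [if_pos hi]
        exact (hP' g).1 h0
      · have hi' : ¬ i = 0 := by rw [hi]; decide
        rw [if_neg hi', map_neg, (hP' g).1 h0]
    · rw [h0]
      rcases z2 i with hi | hi
      · rw [hi]
        have h2 : ¬ ((0 : ZMod 2) - 1 = 0) := by decide
        rw [if_neg h2, if_pos rfl, map_neg, (hP' g).2 h0, neg_neg]
      · rw [hi]
        have h2 : (1 : ZMod 2) - 1 = 0 := by decide
        have h3 : ¬ ((1 : ZMod 2) = 0) := by decide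
        rw [if_pos h2, if_neg h3]
        exact (hP' g).2 h0
  · intro l
    rw [natCast_zsmul]
    show e l = m • Vn 2 W k Q + Vn 2 W k (if l = 0 then P' else -P')
    rcases z2 l with hl | hl
    · rw [hl, if_pos rfl]
      exact hm
    · have h3 : ¬ ((1 : ZMod 2) = 0) := by decide
      rw [hl, if_neg h3, he1, hm, hVneg, neg_add, ← smul_neg, hneg]

end low2

/-- **LoW2**. The local points for deeply ramified `D` (`p = 2`). -/
theorem tLoW2 (h1 : S_Bas2) (h2 : S_Vx2) (h3 : S_It2) (h4 : MP72W.S_Pts) (h5 : S_HpT)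
    (h6 : MP72P.S_Lc1) (h7 : MP72P.S_Dsc) : MP72P.S_LoW2 := by
  intro K _ _ hK W hW v hv k
  obtain ⟨Q₀, ϖ, R, hLF⟩ := h7 2 K hK v hv
  obtain ⟨l1, -, l3, -, -, -, -, l8, -⟩ := h6 2 K v Q₀ ϖ R hLF
  have : IsUltrametricDist v.Completion := l3
  set M : ℝ := 2 + ‖algebraMap K v.Completion W.a₂‖ +
    ∑ j ∈ Finset.range (k + 1), ‖algebraMap K v.Completion (W.a₆ ^ 2 ^ j)‖ with hM
  refine ⟨M, ?_⟩
  intro D hD Q hQ e he0 he
  have hs0 : 0 ≤ ∑ j ∈ Finset.range (k + 1), ‖algebraMap K v.Completion (W.a₆ ^ 2 ^ j)‖ :=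
    Finset.sum_nonneg fun _ _ => norm_nonneg _
  refine vecs W (S := v.Completion) (L := Kvs v) (hP 2 (1 : Kvs v) (algebraMap K v.Completion D))
    h1 h2 h3 h4 hW ?_ l8 (algebraMap K v.Completion D) ((h5 2 K).2 v Q₀ ϖ R hLF _).1 k Q hQ M
    ?_ ?_ ?_ hD e he0 he
  · intro z hz
    obtain ⟨z₀, hz₀⟩ := (InfiniteGalois.mem_range_algebraMap_iff_fixed z).2 hz
    exact ⟨z₀, hz₀⟩
  · have := norm_nonneg (algebraMap K v.Completion W.a₂)
    linarith
  · linarith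
  · intro j hj
    have h8 : ‖algebraMap K v.Completion (W.a₆ ^ 2 ^ j)‖ ≤
        ∑ j ∈ Finset.range (k + 1), ‖algebraMap K v.Completion (W.a₆ ^ 2 ^ j)‖ :=
      Finset.single_le_sum (f := fun j => ‖algebraMap K v.Completion (W.a₆ ^ 2 ^ j)‖)
        (fun _ _ => norm_nonneg _) (Finset.mem_range.2 (by omega))
    have := norm_nonneg (algebraMap K v.Completion W.a₂)
    linarith

end Pool.Agent.MP72V
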