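import Pool.Agent.Lib.MP_72e2e6_nt.WP.El2.Spec
import Pool.Agent.Lib.MP_72e2e6_nt.WP.La.Spec

/-!
# MP_72e2e6_nt, theorem T3p, the case `p = 2`: local statements
-/

namespace Pool.Agent.MP72P

open WeierstrassCurve
open Pool.Agent.MP72W (pmap)
open Pool.Agent.MP72V

open scoped Classical

/-- Outside a finite set of places everything is unramified (`p = 2`). -/
def S_UnW2 : Prop :=
  ∀ (K : Type) [Field K] [CharP K 2], GFld 2 K →
    ∀ W : WeierstrassCurve K, IsN2 W →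
    ∃ (m : ℕ) (av₀ : Fin m → AbsoluteValue K ℝ), (∀ i, (av₀ i).IsNontrivial) ∧
      ∀ (J : Type) (av : J → AbsoluteValue K ℝ), (∀ i, ∃ j, (av j).IsEquiv (av₀ i)) →
        ∀ k, HUn 2 W av k ∧ HWu2 W av k

/-- The local points for deeply ramified `D` (`p = 2`). -/
def S_LoW2 : Prop :=
  ∀ (K : Type) [Field K] [CharP K 2], GFld 2 K →
    ∀ W : WeierstrassCurve K, IsN2 W → ∀ v : AbsoluteValue K ℝ, v.IsNontrivial →
    ∀ k : ℕ, ∃ M : ℝ, ∀ D : K,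
      (∀ y : v.Completion, M ≤ ‖algebraMap K v.Completion D - (y ^ 2 - y)‖) →
      ∀ Q : Pt 2 W k (Kvs v), IsQ 2 W k Q → HLo 2 W k v D Q

end Pool.Agent.MP72P

namespace Pool.Agent.MP72V

open WeierstrassCurve
open Pool.Agent.MP72W (pmap)
open Pool.Agent.MP72P (EqN Kvs Kgs nm op rsH hP tac GFld Pls)
open Pool.Agent

open scoped Classical

/-- **Unv2**. A point with coordinates in `Knr` has only preimages with coordinates in `Knr` under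
`Vn`, at places of good reduction. -/
def S_Unv2 : Prop :=
  ∀ (K : Type) [Field K] [CharP K 2] (W : WeierstrassCurve K), IsN2 W →
    ∀ (v : AbsoluteValue K ℝ) (Q : ℕ) (ϖ : K) (R₀ : Finset K), MP72P.LF v 2 Q ϖ R₀ →
    v W.a₂ ≤ 1 → v W.a₆ = 1 → ∀ (k : ℕ) (X : Pt 2 W k (Kvs v)),
      (px (Vn 2 W k X) ∈ MP72P.Knr 2 v ∧ py (Vn 2 W k X) ∈ MP72P.Knr 2 v) →
      px X ∈ MP72P.Knr 2 v ∧ py X ∈ MP72P.Knr 2 v

/-- **Wu12**. Unit values at places of good reduction (`MP72W.S_Wu1` for general `K`). -/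
def S_Wu12 : Prop :=
  ∀ (K : Type) [Field K] [CharP K 2] (v : AbsoluteValue K ℝ) (Q : ℕ)
    (ϖ : K) (R₀ : Finset K), MP72P.LF v 2 Q ϖ R₀ →
    ∀ (D γ : K), v D ≤ 1 → v γ = 1 → ∀ (k : ℕ) (R : MP72W.Pt D γ k (Kvs v)), MP72W.IsR D γ k R →
      (∀ h ∈ AddSubgroup.zmultiples R, nm v (MP72W.px h) ≤ 1) ∧
      ∀ c : MP72W.Pt D γ k (Kvs v), c ≠ 0 → nm v (MP72W.px c) ≤ 1 →
        (∀ h ∈ AddSubgroup.zmultiples R, h ≠ 0 → nm v (MP72W.px c + MP72W.px h) = 1) →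
        nm v (MP72W.Wf k R c) = 1

/-- **Wun2**. The valuations of `Wf k R P` at places of good reduction are divisible by `2 ^ k`
(`MP72W.S_Wun` for general `K`). -/
def S_Wun2 : Prop :=
  ∀ (K : Type) [Field K] [CharP K 2] (v : AbsoluteValue K ℝ) (Q : ℕ)
    (ϖ : K) (R₀ : Finset K), MP72P.LF v 2 Q ϖ R₀ →
    ∀ (D γ : K), v D ≤ 1 → v γ = 1 → ∀ (k : ℕ) (R : MP72W.Pt D γ k (Kvs v)), MP72W.IsR D γ k R →
      MP72W.CIn R (MP72P.Knr 2 v : Set (Kvs v)) →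
      ∀ P : MP72W.Pt D γ k (Kvs v), MP72W.CIn P (MP72P.Knr 2 v : Set (Kvs v)) →
        P ∉ AddSubgroup.zmultiples R →
        MP72W.Wf k R P ∈ MP72P.Knr 2 v ∧
          ∃ n : ℤ, nm v (MP72W.Wf k R P) = v ϖ ^ n ∧ (2 ^ k : ℤ) ∣ n

end Pool.Agent.MP72V
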